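import Mathlib

open Filter Topology

namespace Pool.Agent.Helper516.GW

theorem fekete_root (U : ℕ → ℝ) (c K C : ℝ) (hc : 0 < c) (hK : 0 < K) (hC : 0 < C)
    (hpos : ∀ d, 1 ≤ d → 0 < U d)
    (hsup : ∀ d e, 1 ≤ d → 1 ≤ e → c * U d * U e ≤ U (d + e))
    (hup : ∀ d, 1 ≤ d → U d ≤ K * C ^ d) :
    ∃ L : ℝ, 0 < L ∧ Tendsto (fun d : ℕ => (U d) ^ (1 / (d : ℝ))) atTop (𝓝 L) := by
  obtain ⟨v, hv⟩ : ∃ v : ℕ → ℝ, v = fun d => if d = 0 then 0 else -Real.log (c * U d) := ⟨_, rfl⟩
  have hv0 : v 0 = 0 := by rw [hv]; simp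
  have hvd : ∀ d, 1 ≤ d → v d = -Real.log (c * U d) := by
    intro d hd
    rw [hv]
    simp only
    rw [if_neg (by omega)]
  have hsub : Subadditive v := by
    intro m n
    rcases Nat.eq_zero_or_pos m with rfl | hm
    · rw [hv0, zero_add, zero_add]
    rcases Nat.eq_zero_or_pos n with rfl | hn
    · rw [hv0, add_zero, add_zero]
    rw [hvd _ (by omega), hvd m hm, hvd n hn]
    have h1 := hpos m hm
    have h2 := hpos n hn
    have h3 := hsup m n hm hn
    have h4 : Real.log (c * U m) + Real.log (c * U n) = Real.log (c * U m * (c * U n)) :=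
      (Real.log_mul (by positivity) (by positivity)).symm
    have h5 : Real.log (c * U m * (c * U n)) ≤ Real.log (c * U (m + n)) := by
      apply Real.log_le_log (by positivity)
      calc c * U m * (c * U n) = c * (c * U m * U n) := by ring
        _ ≤ c * U (m + n) := mul_le_mul_of_nonneg_left h3 hc.le
    linarith
  have hbdd : BddBelow (Set.range fun n : ℕ => v n / n) := by
    refine ⟨-(|Real.log (c * K)| + |Real.log C|), ?_⟩
    rintro _ ⟨n, rfl⟩
    show -(|Real.log (c * K)| + |Real.log C|) ≤ v n / n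
    rcases Nat.eq_zero_or_pos n with rfl | hn
    · rw [hv0]
      simp only [zero_div]
      have := abs_nonneg (Real.log (c * K))
      have := abs_nonneg (Real.log C)
      linarith
    · have hn' : (1 : ℝ) ≤ n := by exact_mod_cast hn
      rw [le_div_iff₀ (by linarith), hvd n hn]
      have h1 : Real.log (c * U n) ≤ Real.log (c * K) + n * Real.log C := by
        calc Real.log (c * U n) ≤ Real.log (c * (K * C ^ n)) := by
              apply Real.log_le_log (mul_pos hc (hpos n hn))
              exact mul_le_mul_of_nonneg_left (hup n hn) hc.le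
          _ = Real.log (c * K) + n * Real.log C := by
              rw [← mul_assoc, Real.log_mul (by positivity) (by positivity), Real.log_pow]
      have h2 := le_abs_self (Real.log (c * K))
      have h3 := le_abs_self (Real.log C)
      have h4 : |Real.log (c * K)| ≤ |Real.log (c * K)| * n :=
        le_mul_of_one_le_right (abs_nonneg _) hn'
      have h5 : (n : ℝ) * Real.log C ≤ n * |Real.log C| :=
        mul_le_mul_of_nonneg_left h3 (by linarith)
      linarith
  have hlim := hsub.tendsto_lim hbdd
  refine ⟨Real.exp (-hsub.lim), Real.exp_pos _, ?_⟩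
  have h1 : Tendsto (fun d : ℕ => -(v d / d) - Real.log c * (1 / (d : ℝ))) atTop
      (𝓝 (-hsub.lim - Real.log c * 0)) :=
    hlim.neg.sub (tendsto_one_div_atTop_nhds_zero_nat.const_mul _)
  rw [mul_zero, sub_zero] at h1
  have h2 := (Real.continuous_exp.tendsto _).comp h1
  refine h2.congr' ?_
  filter_upwards [eventually_ge_atTop 1] with d hd
  show Real.exp (-(v d / d) - Real.log c * (1 / (d : ℝ))) = (U d) ^ (1 / (d : ℝ))
  rw [Real.rpow_def_of_pos (hpos d hd), hvd d hd, Real.log_mul hc.ne' (hpos d hd).ne']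
  congr 1
  ring

end Pool.Agent.Helper516.GW
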