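import Mathlib
import Pool.Agent.Helper516.GW.Fek

open Filter Topology

namespace Pool.Agent.Helper516.GW

theorem choose_root (m k : ℕ) (hk : k ≤ m) :
    ∃ L : ℝ, 0 < L ∧ Tendsto (fun d : ℕ => (((m * d).choose (k * d) : ℕ) : ℝ) ^ (1 / (d : ℝ)))
      atTop (𝓝 L) := by
  refine fekete_root (fun d : ℕ => (((m * d).choose (k * d) : ℕ) : ℝ)) 1 1 (2 ^ m) one_pos one_pos
    (by positivity) ?_ ?_ ?_
  · intro d _
    have h : 0 < (m * d).choose (k * d) := Nat.choose_pos (Nat.mul_le_mul_right d hk)
    exact_mod_cast h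
  · intro d e _ _
    have h : (m * d).choose (k * d) * (m * e).choose (k * e) ≤
        (m * (d + e)).choose (k * (d + e)) := by
      rw [Nat.mul_add, Nat.mul_add, Nat.add_choose_eq]
      exact Finset.single_le_sum
        (f := fun ij : ℕ × ℕ => (m * d).choose ij.1 * (m * e).choose ij.2)
        (fun _ _ => Nat.zero_le _)
        (Finset.HasAntidiagonal.mem_antidiagonal.mpr rfl :
          (k * d, k * e) ∈ Finset.HasAntidiagonal.antidiagonal (k * d + k * e))
    beta_reduce
    rw [one_mul]
    exact_mod_cast h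
  · intro d _
    beta_reduce
    rw [one_mul, ← pow_mul]
    exact_mod_cast Nat.choose_le_two_pow (m * d) (k * d)

end Pool.Agent.Helper516.GW
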