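import Mathlib

open Finset

namespace Pool.Agent.Helper516.GW

/-- The genus-zero, degree-`d` Gromov-Witten invariant of projective three-space with three
insertions `H^i, H^j, H^k`, further `a` point insertions `H^3` and further `b` line insertions
`H^2`, expressed through the numbers `N d a b` (degree `d`, `a` points, `b` lines).
In degree zero only the triple intersection numbers occur; in positive degree an insertion of the
unit `H^0` gives zero and an insertion of the divisor `H^1` gives the factor `d`. -/
def corr (N : ℕ → ℕ → ℕ → ℚ) (i j k d a b : ℕ) : ℚ :=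
  if d = 0 then (if i + j + k = 3 ∧ a = 0 ∧ b = 0 then 1 else 0)
  else if i = 0 ∨ j = 0 ∨ k = 0 then 0
  else (d : ℚ) ^ ([i, j, k].count 1) * N d (a + [i, j, k].count 3) (b + [i, j, k].count 2)

/-- One side of the WDVV equation in degree `d` with `a` extra points and `b` extra lines:
the four distinguished insertions are split as `H^i, H^j` and `H^k, H^l`, and the diagonal
`∑ e, H^e ⊗ H^(3-e)` is inserted at the node. -/
def split (N : ℕ → ℕ → ℕ → ℚ) (i j k l d a b : ℕ) : ℚ :=
  ∑ x ∈ antidiagonal d, ∑ y ∈ antidiagonal a, ∑ z ∈ antidiagonal b,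
    (a.choose y.1 : ℚ) * (b.choose z.1 : ℚ) *
      ∑ e ∈ range 4, corr N i j e x.1 y.1 z.1 * corr N (3 - e) k l x.2 y.2 z.2

/-- `N d a b` is the family of genus-zero curve counts of projective three-space: it vanishes
unless `d ≥ 1` and `2 * a + b = 4 * d`, exactly one line passes through two points, and all the
WDVV (associativity) equations hold. -/
structure IsCount (N : ℕ → ℕ → ℕ → ℚ) : Prop where
  dim : ∀ d a b : ℕ, N d a b ≠ 0 → 1 ≤ d ∧ 2 * a + b = 4 * d
  line : N 1 2 0 = 1
  wdvv : ∀ i j k l : ℕ, i ≤ 3 → j ≤ 3 → k ≤ 3 → l ≤ 3 → ∀ d a b : ℕ,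
    split N i j k l d a b = split N i k j l d a b

end Pool.Agent.Helper516.GW
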