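import Pool.Agent.Helper516.GW.ExSol

open Finset
open scoped Nat

namespace Pool.Agent.Helper516.GW

set_option maxHeartbeats 4000000 in
theorem X4_alg {R : Type} [CommRing R] (g : ℕ → R) (h0 : g 0 = 0)
    (A : g 8 + g 1 * g 8 = 2 * g 6 + g 2 * g 4)
    (B : g 12 + g 1 * g 12 = g 9 + g 4 * g 3)
    (D : g 18 + g 2 * g 12 = g 8 * g 3)
    (E : g 27 + g 2 * g 18 + g 4 * g 9 = g 6 * g 6 + g 3 * g 12)
    (i j k l : ℕ) (hi : i ≤ 3) (hj : j ≤ 3) (hk : k ≤ 3) (hl : l ≤ 3) :
    ∑ e ∈ range 4, ((if i + j + e = 3 then 1 else 0) + g (i * j * e)) *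
      ((if (3 - e) + k + l = 3 then 1 else 0) + g ((3 - e) * k * l)) =
    ∑ e ∈ range 4, ((if i + k + e = 3 then 1 else 0) + g (i * k * e)) *
      ((if (3 - e) + j + l = 3 then 1 else 0) + g ((3 - e) * j * l)) := by
  have C : g 18 + g 1 * g 18 + g 2 * g 9 = 2 * g 3 * g 6 := by
    linear_combination (1 + g 1) * D - g 2 * B + g 3 * A
  have F : g 8 * g 9 + g 4 * g 18 = 2 * g 6 * g 12 := by
    linear_combination g 12 * A - g 8 * B + g 4 * D
  interval_cases i <;> interval_cases j <;> interval_cases k <;> interval_cases l <;>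
    (try simp [Finset.sum_range_succ, h0]) <;>
    (first
      | done
      | ring1
      | linear_combination A
      | linear_combination -A
      | linear_combination B
      | linear_combination -B
      | linear_combination C
      | linear_combination -C
      | linear_combination D
      | linear_combination -D
      | linear_combination E
      | linear_combination -E
      | linear_combination F
      | linear_combination -F)

/-- third derivatives indexed by the product of the directions -/
noncomputable def X4_g (G : T) (n : ℕ) : T :=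
  if n = 1 then D1 (D1 (D1 G)) else if n = 2 then D1 (D1 (D2 G)) else
  if n = 3 then D1 (D1 (D3 G)) else if n = 4 then D1 (D2 (D2 G)) else
  if n = 6 then D1 (D2 (D3 G)) else if n = 9 then D1 (D3 (D3 G)) else
  if n = 8 then D2 (D2 (D2 G)) else if n = 12 then D2 (D2 (D3 G)) else
  if n = 18 then D2 (D3 (D3 G)) else if n = 27 then D3 (D3 (D3 G)) else 0

theorem X4_Dn (G : T) (i j k : ℕ) (hi : i ≤ 3) (hj : j ≤ 3) (hk : k ≤ 3) :
    Dn i (Dn j (Dn k G)) = X4_g G (i * j * k) := by
  have c12 : ∀ F : T, D2 (D1 F) = D1 (D2 F) := fun F => (D12 F).symm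
  have c13 : ∀ F : T, D3 (D1 F) = D1 (D3 F) := fun F => (D13 F).symm
  have c23 : ∀ F : T, D3 (D2 F) = D2 (D3 F) := fun F => (D23 F).symm
  interval_cases i <;> interval_cases j <;> interval_cases k <;>
    simp [X4_g, c12, c13, c23]

theorem exists_count : ∃ N, IsCount N := by
  obtain ⟨u, hu⟩ := exists_sol
  have hA : dA (ser u) = 0 := by
    apply T_ext; intro d a b; rw [cf_zero]; exact (hu d).A d (Nat.lt_succ_self d) a b
  have hB : dB (ser u) = 0 := by
    apply T_ext; intro d a b; rw [cf_zero]; exact (hu d).B d (Nat.lt_succ_self d) a b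
  have hD : dD (ser u) = 0 := by
    apply T_ext; intro d a b; rw [cf_zero]; exact (hu d).D d (Nat.lt_succ_self d) a b
  have hE : dE (ser u) = 0 := by
    apply T_ext; intro d a b; rw [cf_zero]; exact (hu d).E d (Nat.lt_succ_self d) a b
  refine ⟨fun d a b => u d a b * ((a ! : ℚ) * (b ! : ℚ)), ?_⟩
  set N : ℕ → ℕ → ℕ → ℚ := fun d a b => u d a b * ((a ! : ℚ) * (b ! : ℚ)) with hNdef
  have hdim : ∀ d a b : ℕ, N d a b ≠ 0 → 1 ≤ d ∧ 2 * a + b = 4 * d := by
    intro d a b h
    refine (hu 0).dim d a b fun h0 => h ?_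
    simp [hNdef, h0]
  have hN0 : ∀ a b, N 0 a b = 0 := by
    intro a b
    by_contra h0
    have := (hdim 0 a b h0).1
    omega
  have hG : G N = ser u := by
    apply T_ext; intro d a b
    simp only [G, cf_ser, hNdef]
    have pa : (a ! : ℚ) ≠ 0 := by positivity
    have pb : (b ! : ℚ) ≠ 0 := by positivity
    field_simp
  refine ⟨hdim, ?_, ?_⟩
  · simp only [hNdef, (hu 0).line]
    norm_num [Nat.factorial]
  · intro i j k l hi hj hk hl d a b
    apply wdvv_of_T
    congr 1
    have hP : ∀ i j k : ℕ, i ≤ 3 → j ≤ 3 → k ≤ 3 →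
        P N i j k = (if i + j + k = 3 then 1 else 0) + X4_g (ser u) (i * j * k) := by
      intro i j k hi hj hk
      rw [P_all hN0 i j k hi hj hk, hG, X4_Dn _ i j k hi hj hk]
    have key := X4_alg (X4_g (ser u)) (by simp [X4_g])
      (by rw [dA, sub_eq_zero] at hA; simpa [X4_g] using hA)
      (by rw [dB, sub_eq_zero] at hB; simpa [X4_g] using hB)
      (by rw [dD, sub_eq_zero] at hD; simpa [X4_g] using hD)
      (by rw [dE, sub_eq_zero] at hE; simpa [X4_g] using hE)
      i j k l hi hj hk hl
    have e1 : ∑ e ∈ range 4, P N i j e * P N (3 - e) k l =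
        ∑ e ∈ range 4, ((if i + j + e = 3 then 1 else 0) + X4_g (ser u) (i * j * e)) *
          ((if (3 - e) + k + l = 3 then 1 else 0) + X4_g (ser u) ((3 - e) * k * l)) := by
      refine Finset.sum_congr rfl fun e he => ?_
      have he' : e < 4 := Finset.mem_range.1 he
      rw [hP i j e hi hj (by omega), hP (3 - e) k l (by omega) hk hl]
    have e2 : ∑ e ∈ range 4, P N i k e * P N (3 - e) j l =
        ∑ e ∈ range 4, ((if i + k + e = 3 then 1 else 0) + X4_g (ser u) (i * k * e)) *
          ((if (3 - e) + j + l = 3 then 1 else 0) + X4_g (ser u) ((3 - e) * j * l)) := by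
      refine Finset.sum_congr rfl fun e he => ?_
      have he' : e < 4 := Finset.mem_range.1 he
      rw [hP i k e hi hk (by omega), hP (3 - e) j l (by omega) hj hl]
    rw [e1, e2]
    exact key

end Pool.Agent.Helper516.GW
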