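import Pool.Agent.Helper516.GW.Step

open Finset
open scoped Nat

namespace Pool.Agent.Helper516.GW

/-- equality below the q-degree `n` -/
def Eqv (n : ℕ) (F F' : T) : Prop := Van n (F - F')

theorem Eqv.refl (n : ℕ) (F : T) : Eqv n F F := by
  intro d _ a b
  simp

theorem Eqv.D1 {n : ℕ} {F F' : T} (h : Eqv n F F') : Eqv n (D1 F) (D1 F') := by
  unfold Eqv at *
  rw [← map_sub]
  exact Van.D1 h

theorem Eqv.D2 {n : ℕ} {F F' : T} (h : Eqv n F F') : Eqv n (D2 F) (D2 F') := by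
  unfold Eqv at *
  rw [← map_sub]
  exact Van.D2 h

theorem Eqv.D3 {n : ℕ} {F F' : T} (h : Eqv n F F') : Eqv n (D3 F) (D3 F') := by
  unfold Eqv at *
  rw [← map_sub]
  exact Van.D3 h

theorem Eqv.add {n : ℕ} {F F' H H' : T} (h : Eqv n F F') (h' : Eqv n H H') :
    Eqv n (F + H) (F' + H') := by
  unfold Eqv at *
  have : F + H - (F' + H') = (F - F') + (H - H') := by ring
  rw [this]
  exact Van.add h h'

theorem Eqv.sub {n : ℕ} {F F' H H' : T} (h : Eqv n F F') (h' : Eqv n H H') :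
    Eqv n (F - H) (F' - H') := by
  unfold Eqv at *
  have : F - H - (F' - H') = (F - F') - (H - H') := by ring
  rw [this]
  exact Van.sub h h'

theorem Eqv.mul {n : ℕ} {F F' H H' : T} (h : Eqv n F F') (h' : Eqv n H H') :
    Eqv n (F * H) (F' * H') := by
  unfold Eqv at *
  have : F * H - F' * H' = (F - F') * H + F' * (H - H') := by ring
  rw [this]
  exact Van.add (Van.mul_right h _) (Van.mul_left h' _)

theorem Eqv.van {n : ℕ} {F F' : T} (h : Eqv n F F') (hF : Van n F) : Van n F' := by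
  have : F' = F - (F - F') := by ring
  rw [this]
  exact Van.sub hF h

theorem Eqv.dA {n : ℕ} {F F' : T} (h : Eqv n F F') : Eqv n (dA F) (dA F') :=
  ((h.D2.D2.D2.add (h.D1.D1.D1.mul h.D2.D2.D2)).sub
    (((Eqv.refl n 2).mul h.D3.D2.D1).add (h.D2.D1.D1.mul h.D2.D2.D1)))

theorem Eqv.dB {n : ℕ} {F F' : T} (h : Eqv n F F') : Eqv n (dB F) (dB F') :=
  ((h.D3.D2.D2.add (h.D1.D1.D1.mul h.D3.D2.D2)).sub
    (h.D3.D3.D1.add (h.D2.D2.D1.mul h.D3.D1.D1)))

theorem Eqv.dD {n : ℕ} {F F' : T} (h : Eqv n F F') : Eqv n (dD F) (dD F') :=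
  ((h.D3.D3.D2.add (h.D2.D1.D1.mul h.D3.D2.D2)).sub
    (h.D2.D2.D2.mul h.D3.D1.D1))

theorem Eqv.dE {n : ℕ} {F F' : T} (h : Eqv n F F') : Eqv n (dE F) (dE F') :=
  (((h.D3.D3.D3.add (h.D2.D1.D1.mul h.D3.D3.D2)).add (h.D2.D2.D1.mul h.D3.D3.D1)).sub
    ((h.D3.D2.D1.mul h.D3.D2.D1).add (h.D3.D1.D1.mul h.D3.D2.D2)))

theorem Eqv.ser {n : ℕ} {u v : ℕ → ℕ → ℕ → ℚ} (h : ∀ d < n, u d = v d) :
    Eqv n (ser u) (ser v) := by
  intro d hd a b
  rw [cf_sub, cf_ser, cf_ser, h d hd, sub_self]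

/-- the lines -/
noncomputable def u1 (d a b : ℕ) : ℚ :=
  if d = 1 ∧ a = 2 ∧ b = 0 then 1 / 2 else if d = 1 ∧ a = 1 ∧ b = 2 then 1 / 2
    else if d = 1 ∧ a = 0 ∧ b = 4 then 1 / 12 else 0

theorem van_u1 : Van 1 (ser u1) := by
  intro d hd a b
  have : d = 0 := by omega
  subst this
  simp [u1]

theorem van_two_of {F L : T} (h : Van 2 (F - L)) (hL : Van 2 L) : Van 2 F := by
  have : F = (F - L) + L := by ring
  rw [this]
  exact Van.add h hL

theorem van_two_iff {F : T} (h0 : ∀ a b, cf F 0 a b = 0) (h1 : ∀ a b, cf F 1 a b = 0) : Van 2 F := by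
  intro d hd a b
  have : d = 0 ∨ d = 1 := by omega
  rcases this with rfl | rfl
  · exact h0 a b
  · exact h1 a b

theorem Sol_one : ∃ u, Sol 1 u := by
  have hv := van_u1
  refine ⟨u1, ?_, ?_, ?_, ?_, ?_, ?_⟩
  · intro d a b h
    unfold u1 at h
    split_ifs at h with h1 h2 h3
    · omega
    · omega
    · omega
    · exact absurd rfl h
  · simp [u1]
  · refine van_two_of (L := D2 (D2 (D2 (ser u1))) - 2 * D1 (D2 (D3 (ser u1)))) ?_ ?_
    · have : dA (ser u1) - (D2 (D2 (D2 (ser u1))) - 2 * D1 (D2 (D3 (ser u1)))) =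
          D1 (D1 (D1 (ser u1))) * D2 (D2 (D2 (ser u1))) -
            D1 (D1 (D2 (ser u1))) * D1 (D2 (D2 (ser u1))) := by
        unfold dA
        ring
      rw [this]
      exact Van.sub (hv.D1.D1.D1.mul hv.D2.D2.D2) (hv.D2.D1.D1.mul hv.D2.D2.D1)
    · refine van_two_iff (fun a b => ?_) (fun a b => ?_)
      · simp [u1]
      · simp only [cf_sub, cf_D2, cf_two_mul, cf_D1, cf_D3, cf_ser]
        rcases a with _ | _ | _ | a <;> rcases b with _ | _ | _ | _ | _ | b <;> simp [u1] <;> norm_num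
  · refine van_two_of (L := D2 (D2 (D3 (ser u1))) - D1 (D3 (D3 (ser u1)))) ?_ ?_
    · have : dB (ser u1) - (D2 (D2 (D3 (ser u1))) - D1 (D3 (D3 (ser u1)))) =
          D1 (D1 (D1 (ser u1))) * D2 (D2 (D3 (ser u1))) -
            D1 (D2 (D2 (ser u1))) * D1 (D1 (D3 (ser u1))) := by
        unfold dB
        ring
      rw [this]
      exact Van.sub (hv.D1.D1.D1.mul hv.D3.D2.D2) (hv.D2.D2.D1.mul hv.D3.D1.D1)
    · refine van_two_iff (fun a b => ?_) (fun a b => ?_)
      · simp [u1]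
      · simp only [cf_sub, cf_D2, cf_D1, cf_D3, cf_ser]
        rcases a with _ | _ | _ | a <;> rcases b with _ | _ | _ | _ | _ | b <;> simp [u1] <;> norm_num
  · refine van_two_of (L := D2 (D3 (D3 (ser u1)))) ?_ ?_
    · have : dD (ser u1) - D2 (D3 (D3 (ser u1))) =
          D1 (D1 (D2 (ser u1))) * D2 (D2 (D3 (ser u1))) -
            D2 (D2 (D2 (ser u1))) * D1 (D1 (D3 (ser u1))) := by
        unfold dD
        ring
      rw [this]
      exact Van.sub (hv.D2.D1.D1.mul hv.D3.D2.D2) (hv.D2.D2.D2.mul hv.D3.D1.D1)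
    · refine van_two_iff (fun a b => ?_) (fun a b => ?_)
      · simp [u1]
      · simp only [cf_D2, cf_D3, cf_ser]
        simp [u1]
  · refine van_two_of (L := D3 (D3 (D3 (ser u1)))) ?_ ?_
    · have : dE (ser u1) - D3 (D3 (D3 (ser u1))) =
          D1 (D1 (D2 (ser u1))) * D2 (D3 (D3 (ser u1))) + D1 (D2 (D2 (ser u1))) * D1 (D3 (D3 (ser u1))) -
            (D1 (D2 (D3 (ser u1))) * D1 (D2 (D3 (ser u1))) +
              D1 (D1 (D3 (ser u1))) * D2 (D2 (D3 (ser u1)))) := by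
        unfold dE
        ring
      rw [this]
      exact Van.sub (Van.add (hv.D2.D1.D1.mul hv.D3.D3.D2) (hv.D2.D2.D1.mul hv.D3.D3.D1))
        (Van.add (hv.D3.D2.D1.mul hv.D3.D2.D1) (hv.D3.D1.D1.mul hv.D3.D2.D2))
    · refine van_two_iff (fun a b => ?_) (fun a b => ?_)
      · simp [u1]
      · simp only [cf_D3, cf_ser]
        simp [u1]

theorem exists_sol : ∃ u, ∀ n, Sol n u := by
  classical
  obtain ⟨u0, hu0⟩ := Sol_one
  have hst : ∀ (k : ℕ) (u : {u // Sol (k + 1) u}), ∃ u' : {u // Sol (k + 1 + 1) u},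
      ∀ d ≤ k + 1, u'.1 d = u.1 d := by
    intro k u
    obtain ⟨u', h1, h2⟩ := Sol.step u.2 (by omega)
    exact ⟨⟨u', h1⟩, fun d hd => by funext a b; exact h2 d hd a b⟩
  choose nx hnx using hst
  let w : ∀ k : ℕ, {u // Sol (k + 1) u} := fun k =>
    Nat.rec (motive := fun k => {u // Sol (k + 1) u}) ⟨u0, hu0⟩ (fun k u => nx k u) k
  have hw : ∀ k, ∀ d ≤ k + 1, (w (k + 1)).1 d = (w k).1 d := fun k => hnx k (w k)
  have hw2 : ∀ d k, d ≤ k → (w k).1 d = (w d).1 d := by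
    intro d k hk
    induction k, hk using Nat.le_induction with
    | base => rfl
    | succ k hk ih => rw [hw k d (by omega), ih]
  have hv : ∀ k, ∀ d < k + 2, (w k).1 d = (w d).1 d := by
    intro k d hd
    rcases Nat.lt_or_ge k d with h | h
    · have hdk : d = k + 1 := by omega
      subst hdk
      exact (hw k (k + 1) le_rfl).symm
    · exact hw2 d k h
  refine ⟨fun d => (w d).1 d, fun n => ?_⟩
  have he : Eqv (n + 2) (ser (w n).1) (ser fun d => (w d).1 d) := Eqv.ser (hv n)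
  have hS := (w n).2
  refine ⟨?_, ?_, ?_, ?_, ?_, ?_⟩
  · intro d a b h
    exact (w d).2.dim d a b h
  · exact (w 1).2.line
  · exact (he.dA.van hS.A).mono (by omega)
  · exact (he.dB.van hS.B).mono (by omega)
  · exact (he.dD.van hS.D).mono (by omega)
  · exact (he.dE.van hS.E).mono (by omega)

end Pool.Agent.Helper516.GW
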