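import Pool.Agent.Helper516.GW.Star

open Finset
open scoped Nat

namespace Pool.Agent.Helper516.GW

variable {N : ℕ → ℕ → ℕ → ℚ}

theorem uu_eq_zero (h : IsCount N) {d a b : ℕ} (hd : ¬ (1 ≤ d ∧ 2 * a + b = 4 * d)) :
    uu N d a b = 0 := by
  have : N d a b = 0 := by
    by_contra h0; exact hd (h.dim d a b h0)
  simp [uu, this]

theorem uu_zero (h : IsCount N) (a b : ℕ) : uu N 0 a b = 0 := uu_eq_zero h (by omega)

theorem uu_one (h : IsCount N) : uu N 1 2 0 = 1 / 2 := by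
  simp [uu, h.line]

noncomputable def ww (N : ℕ → ℕ → ℕ → ℚ) (d : ℕ) : ℚ := uu N d (2 * d) 0
noncomputable def yy (N : ℕ → ℕ → ℕ → ℚ) (d : ℕ) : ℚ := 2 * uu N d (2 * d - 1) 2

theorem anti_single {n p q : ℕ} (hpq : p + q = n) (f : ℕ × ℕ → ℚ)
    (h : ∀ y ∈ antidiagonal n, y ≠ (p, q) → f y = 0) : ∑ y ∈ antidiagonal n, f y = f (p, q) := by
  refine Finset.sum_eq_single_of_mem (p, q) ?_ h
  rw [Finset.HasAntidiagonal.mem_antidiagonal]; exact hpq

theorem rel1 (h : IsCount N) (d : ℕ) : (2 * (d : ℚ) - 1) * yy N d =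
    2 * (d : ℚ) ^ 2 * (2 * d - 1) * ww N d +
      ∑ x ∈ antidiagonal d, (x.1 : ℚ) ^ 3 * ww N x.1 * yy N x.2 := by
  rcases Nat.eq_zero_or_pos d with rfl | hd
  · simp [yy, ww, uu_zero h]
  · have h1 := star h d (2 * d - 1) 0
    have e1 : 2 * d - 1 + 1 = 2 * d := by omega
    have e2 : (((2 * d - 1 : ℕ)) : ℚ) = 2 * d - 1 := by
      rw [Nat.cast_sub (by omega)]; push_cast; ring
    rw [e1, e2] at h1
    have h2 : ∑ x ∈ antidiagonal d, ∑ y ∈ antidiagonal (2 * d - 1), ∑ z ∈ antidiagonal 0,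
        ((x.1 : ℚ) ^ 3 * uu N x.1 y.1 z.1) * ((z.2 + 2) * (z.2 + 1) * uu N x.2 y.2 (z.2 + 2)) =
        ∑ x ∈ antidiagonal d, (x.1 : ℚ) ^ 3 * ww N x.1 * yy N x.2 := by
      refine Finset.sum_congr rfl fun x hx => ?_
      rw [Finset.HasAntidiagonal.mem_antidiagonal] at hx
      rcases Nat.eq_zero_or_pos x.2 with h0 | h0
      · rw [h0]
        simp [uu_zero h, yy]
      · rw [anti_single (p := 2 * x.1) (q := 2 * x.2 - 1) (by omega)]
        · simp [ww, yy]
        · intro y hy hne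
          rw [Finset.HasAntidiagonal.mem_antidiagonal] at hy
          have hy1 : y.1 ≠ 2 * x.1 := by
            intro hy1; apply hne; ext <;> simp only <;> omega
          simp only [Finset.Nat.antidiagonal_zero, Finset.sum_singleton]
          rw [uu_eq_zero h (a := y.1) (by omega)]
          ring
    rw [h2] at h1
    simp only [yy, ww] at *
    push_cast at h1 ⊢
    linear_combination h1

theorem rel2 (h : IsCount N) (d : ℕ) : (2 * (d : ℚ)) * (2 * d - 1) * (2 * d - 2) * ww N d =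
      ∑ x ∈ antidiagonal d, 2 * (x.2 : ℚ) ^ 2 * ((x.1 : ℚ) - x.2) * yy N x.1 * ww N x.2 := by
  rcases Nat.lt_or_ge d 2 with hd | hd
  · interval_cases d
    · simp [yy, ww, uu_zero h]
    · simp [yy, ww, uu_zero h, Finset.Nat.antidiagonal_succ]
  · have h1 := congrArg (fun F => cf F d (2 * d - 3) 0) h.eqs.E
    simp only [cf_add, cf_D1, cf_D2, cf_D3, cf_mul, cf_G, Finset.Nat.antidiagonal_zero,
      Finset.sum_singleton] at h1
    have e1 : 2 * d - 3 + 1 + 1 + 1 = 2 * d := by omega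
    have e2 : (((2 * d - 3 : ℕ)) : ℚ) = 2 * d - 3 := by
      rw [Nat.cast_sub (by omega)]; push_cast; ring
    rw [e1] at h1
    have S1 : ∑ x ∈ antidiagonal d, ∑ y ∈ antidiagonal (2 * d - 3),
        (x.1 : ℚ) * (↑x.1 * ((((0 : ℕ) : ℚ) + 1) * uu N x.1 y.1 (0 + 1))) *
              ((((0 : ℕ) : ℚ) + 1) * ((↑y.2 + 1) * ((↑(y.2 + 1) + 1) *
                uu N x.2 (y.2 + 1 + 1) (0 + 1)))) = 0 := by
      refine Finset.sum_eq_zero fun x _ => Finset.sum_eq_zero fun y _ => ?_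
      rw [uu_eq_zero h (a := y.1) (by omega)]; simp
    have S3 : ∑ x ∈ antidiagonal d, ∑ y ∈ antidiagonal (2 * d - 3),
          (x.1 : ℚ) * ((((0 : ℕ) : ℚ) + 1) * ((↑y.1 + 1) * uu N x.1 (y.1 + 1) (0 + 1))) *
            (↑x.2 * ((((0 : ℕ) : ℚ) + 1) * ((↑y.2 + 1) * uu N x.2 (y.2 + 1) (0 + 1)))) = 0 := by
      refine Finset.sum_eq_zero fun x _ => Finset.sum_eq_zero fun y _ => ?_
      rw [uu_eq_zero h (a := y.1 + 1) (by omega)]; simp
    have S2 : ∑ x ∈ antidiagonal d, ∑ y ∈ antidiagonal (2 * d - 3),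
          (x.1 : ℚ) * ((((0 : ℕ) : ℚ) + 1) * ((((0 + 1 : ℕ) : ℚ) + 1) * uu N x.1 y.1 (0 + 1 + 1))) *
            (↑x.2 * ((↑y.2 + 1) * ((↑(y.2 + 1) + 1) * uu N x.2 (y.2 + 1 + 1) 0))) =
        ∑ x ∈ antidiagonal d, (x.1 : ℚ) * yy N x.1 * (x.2 * (2 * x.2 - 1) * (2 * x.2) * ww N x.2) := by
      refine Finset.sum_congr rfl fun x hx => ?_
      rw [Finset.HasAntidiagonal.mem_antidiagonal] at hx
      rcases Nat.eq_zero_or_pos x.1 with h0 | h0
      · rw [h0]; simp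
      rcases Nat.eq_zero_or_pos x.2 with h0' | h0'
      · rw [h0']; simp
      rw [anti_single (p := 2 * x.1 - 1) (q := 2 * x.2 - 2) (by omega)]
      · have e3 : 2 * x.2 - 2 + 1 + 1 = 2 * x.2 := by omega
        have e4 : (((2 * x.2 - 2 : ℕ)) : ℚ) = 2 * x.2 - 2 := by
          rw [Nat.cast_sub (by omega)]; push_cast; ring
        simp only [e3, ww, yy]
        push_cast
        rw [e4]
        ring
      · intro y hy hne
        rw [Finset.HasAntidiagonal.mem_antidiagonal] at hy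
        have hy1 : y.1 ≠ 2 * x.1 - 1 := by
          intro hy1; apply hne; ext <;> simp only <;> omega
        rw [uu_eq_zero h (a := y.1) (by omega)]
        simp
    have S4 : ∑ x ∈ antidiagonal d, ∑ y ∈ antidiagonal (2 * d - 3),
          (x.1 : ℚ) * (↑x.1 * ((↑y.1 + 1) * uu N x.1 (y.1 + 1) 0)) *
            ((((0 : ℕ) : ℚ) + 1) * ((((0 + 1 : ℕ) : ℚ) + 1) * ((↑y.2 + 1) *
              uu N x.2 (y.2 + 1) (0 + 1 + 1)))) =
        ∑ x ∈ antidiagonal d, (x.2 : ℚ) ^ 2 * (2 * x.2) * ww N x.2 * ((2 * x.1 - 1) * yy N x.1) := by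
      rw [← Finset.Nat.sum_antidiagonal_swap]
      refine Finset.sum_congr rfl fun x hx => ?_
      rw [Finset.HasAntidiagonal.mem_antidiagonal] at hx
      simp only [Prod.fst_swap, Prod.snd_swap]
      rcases Nat.eq_zero_or_pos x.1 with h0 | h0
      · rw [h0]; simp [uu_zero h, yy]
      rcases Nat.eq_zero_or_pos x.2 with h0' | h0'
      · rw [h0']; simp
      rw [anti_single (p := 2 * x.2 - 1) (q := 2 * x.1 - 2) (by omega)]
      · have e3 : 2 * x.2 - 1 + 1 = 2 * x.2 := by omega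
        have e3' : 2 * x.1 - 2 + 1 = 2 * x.1 - 1 := by omega
        have e4 : (((2 * x.2 - 1 : ℕ)) : ℚ) = 2 * x.2 - 1 := by
          rw [Nat.cast_sub (by omega)]; push_cast; ring
        have e5 : (((2 * x.1 - 2 : ℕ)) : ℚ) = 2 * x.1 - 2 := by
          rw [Nat.cast_sub (by omega)]; push_cast; ring
        simp only [e3, e3', ww, yy]
        push_cast
        rw [e4, e5]
        ring
      · intro y hy hne
        rw [Finset.HasAntidiagonal.mem_antidiagonal] at hy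
        have hy1 : y.1 ≠ 2 * x.2 - 1 := by
          intro hy1; apply hne; ext <;> simp only <;> omega
        rw [uu_eq_zero h (a := y.1 + 1) (b := 0) (by omega)]
        simp
    rw [S1, S2, S3, S4] at h1
    have hfin : ∑ x ∈ antidiagonal d, 2 * (x.2 : ℚ) ^ 2 * ((x.1 : ℚ) - x.2) * yy N x.1 * ww N x.2 =
        ∑ x ∈ antidiagonal d, (x.2 : ℚ) ^ 2 * (2 * x.2) * ww N x.2 * ((2 * x.1 - 1) * yy N x.1) -
        ∑ x ∈ antidiagonal d, (x.1 : ℚ) * yy N x.1 * (x.2 * (2 * x.2 - 1) * (2 * x.2) * ww N x.2) := by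
      rw [← Finset.sum_sub_distrib]
      refine Finset.sum_congr rfl fun x _ => ?_
      ring
    rw [hfin]
    have e6 : (((2 * d - 3 + 1 : ℕ)) : ℚ) = 2 * d - 2 := by push_cast; rw [e2]; ring
    have e7 : (((2 * d - 3 + 1 + 1 : ℕ)) : ℚ) = 2 * d - 1 := by push_cast; rw [e2]; ring
    rw [e2, e6, e7] at h1
    simp only [ww] at *
    linear_combination h1

end Pool.Agent.Helper516.GW
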