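import Mathlib

open Finset PowerSeries

namespace Pool.Agent.Helper516.GW

/-- power series in q (outer), x3 (middle), x2 (inner). -/
abbrev T : Type := PowerSeries (PowerSeries (PowerSeries ℚ))

noncomputable def cf (F : T) (d a b : ℕ) : ℚ := coeff b (coeff a (coeff d F))

noncomputable def ser (f : ℕ → ℕ → ℕ → ℚ) : T :=
  PowerSeries.mk fun d => PowerSeries.mk fun a => PowerSeries.mk fun b => f d a b

@[simp] theorem cf_ser (f : ℕ → ℕ → ℕ → ℚ) (d a b : ℕ) : cf (ser f) d a b = f d a b := by
  simp [cf, ser]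

theorem T_ext {F H : T} (h : ∀ d a b, cf F d a b = cf H d a b) : F = H := by
  ext d a b
  exact h d a b

theorem cf_mul (F H : T) (d a b : ℕ) :
    cf (F * H) d a b = ∑ x ∈ antidiagonal d, ∑ y ∈ antidiagonal a, ∑ z ∈ antidiagonal b,
      cf F x.1 y.1 z.1 * cf H x.2 y.2 z.2 := by
  simp [cf, coeff_mul, map_sum]

@[simp] theorem cf_add (F H : T) (d a b : ℕ) : cf (F + H) d a b = cf F d a b + cf H d a b := by
  simp [cf]

@[simp] theorem cf_sub (F H : T) (d a b : ℕ) : cf (F - H) d a b = cf F d a b - cf H d a b := by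
  simp [cf]

@[simp] theorem cf_neg (F : T) (d a b : ℕ) : cf (-F) d a b = - cf F d a b := by
  simp [cf]

@[simp] theorem cf_zero (d a b : ℕ) : cf (0 : T) d a b = 0 := by
  simp [cf]

theorem cf_sum {ι : Type} (s : Finset ι) (f : ι → T) (d a b : ℕ) :
    cf (∑ e ∈ s, f e) d a b = ∑ e ∈ s, cf (f e) d a b := by
  simp [cf, map_sum]

theorem cf_one (d a b : ℕ) : cf (1 : T) d a b = if d = 0 ∧ a = 0 ∧ b = 0 then 1 else 0 := by
  simp only [cf, coeff_one]
  by_cases hd : d = 0
  · by_cases ha : a = 0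
    · simp [hd, ha, coeff_one]
    · simp [hd, ha, coeff_one]
  · simp [hd]

theorem cf_natCast_mul (n : ℕ) (F : T) (d a b : ℕ) :
    cf ((n : T) * F) d a b = n * cf F d a b := by
  induction n with
  | zero => simp
  | succ n ih => push_cast; rw [add_mul, cf_add, ih]; ring

@[simp] theorem cf_two_mul (F : T) (d a b : ℕ) : cf (2 * F) d a b = 2 * cf F d a b := by
  have := cf_natCast_mul 2 F d a b
  simpa using this

@[simp] theorem cf_four_mul (F : T) (d a b : ℕ) : cf (4 * F) d a b = 4 * cf F d a b := by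
  have := cf_natCast_mul 4 F d a b
  simpa using this

/-- q d/dq. -/
noncomputable def D1 : T →+ T where
  toFun := fun F => X * PowerSeries.derivative (PowerSeries (PowerSeries ℚ)) F
  map_zero' := by simp
  map_add' := by intro F H; simp [mul_add]

noncomputable def D3 : T →+ T where
    toFun := fun F => PowerSeries.mk fun d => PowerSeries.derivative (PowerSeries ℚ) (coeff d F)
    map_zero' := by ext d : 1; simp
    map_add' := by intro F H; ext d : 1; simp

noncomputable def D2 : T →+ T where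
    toFun := fun F => PowerSeries.mk fun d => PowerSeries.mk fun a =>
      PowerSeries.derivative ℚ (coeff a (coeff d F))
    map_zero' := by ext d a : 2; simp
    map_add' := by intro F H; ext d a : 2; simp

theorem D1_mul (F H : T) : D1 (F * H) = D1 F * H + F * D1 H := by
  simp only [D1, AddMonoidHom.coe_mk, ZeroHom.coe_mk, Derivation.leibniz, smul_eq_mul]
  ring

theorem D3_mul (F H : T) : D3 (F * H) = D3 F * H + F * D3 H := by
  ext d : 1
  simp only [D3, AddMonoidHom.coe_mk, ZeroHom.coe_mk, coeff_mk, coeff_mul, map_sum,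
    Derivation.leibniz, smul_eq_mul, map_add, ← Finset.sum_add_distrib]
  refine Finset.sum_congr rfl fun x _ => ?_
  ring

theorem D2_mul (F H : T) : D2 (F * H) = D2 F * H + F * D2 H := by
  ext d a : 2
  simp only [D2, AddMonoidHom.coe_mk, ZeroHom.coe_mk, coeff_mk, coeff_mul, map_sum,
    Derivation.leibniz, smul_eq_mul, map_add, ← Finset.sum_add_distrib]
  refine Finset.sum_congr rfl fun x _ => Finset.sum_congr rfl fun y _ => ?_
  ring

@[simp] theorem cf_D1 (F : T) (d a b : ℕ) : cf (D1 F) d a b = d * cf F d a b := by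
  simp only [cf, D1, AddMonoidHom.coe_mk, ZeroHom.coe_mk]
  cases d with
  | zero => simp
  | succ d =>
    rw [coeff_succ_X_mul, coeff_derivative]
    have h : ((d : PowerSeries (PowerSeries ℚ)) + 1) = C (C ((d : ℚ) + 1)) := by simp
    rw [h, coeff_mul_C, coeff_mul_C]
    push_cast
    ring

@[simp] theorem cf_D3 (F : T) (d a b : ℕ) : cf (D3 F) d a b = (a + 1) * cf F d (a+1) b := by
  simp only [cf, D3, AddMonoidHom.coe_mk, ZeroHom.coe_mk, coeff_mk, coeff_derivative]
  have h : ((a : PowerSeries ℚ) + 1) = C ((a : ℚ) + 1) := by simp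
  rw [h, coeff_mul_C]
  ring

@[simp] theorem cf_D2 (F : T) (d a b : ℕ) : cf (D2 F) d a b = (b + 1) * cf F d a (b+1) := by
  simp only [cf, D2, AddMonoidHom.coe_mk, ZeroHom.coe_mk, coeff_mk, coeff_derivative]
  ring

theorem D12 (F : T) : D1 (D2 F) = D2 (D1 F) := by
  apply T_ext; intro d a b; simp; ring

theorem D13 (F : T) : D1 (D3 F) = D3 (D1 F) := by
  apply T_ext; intro d a b; simp; ring

theorem D23 (F : T) : D2 (D3 F) = D3 (D2 F) := by
  apply T_ext; intro d a b; simp; ring

/-- multiplication by x2 -/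
noncomputable def x2 : T := C (C X)
/-- multiplication by x3 -/
noncomputable def x3 : T := C X

theorem cf_x2_mul_succ (F : T) (d a b : ℕ) : cf (x2 * F) d a (b+1) = cf F d a b := by
  simp [cf, x2, coeff_C_mul, coeff_succ_X_mul]

theorem cf_x2_mul_zero (F : T) (d a : ℕ) : cf (x2 * F) d a 0 = 0 := by
  simp [cf, x2, coeff_C_mul]

theorem cf_x3_mul_succ (F : T) (d a b : ℕ) : cf (x3 * F) d (a+1) b = cf F d a b := by
  simp [cf, x3, coeff_C_mul, coeff_succ_X_mul]

theorem cf_x3_mul_zero (F : T) (d b : ℕ) : cf (x3 * F) d 0 b = 0 := by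
  simp [cf, x3, coeff_C_mul]

theorem cf_x2_mul (F : T) (d a b : ℕ) : cf (x2 * F) d a b = if b = 0 then 0 else cf F d a (b-1) := by
  cases b with
  | zero => simp [cf_x2_mul_zero]
  | succ b => simp [cf_x2_mul_succ]

theorem cf_x3_mul (F : T) (d a b : ℕ) : cf (x3 * F) d a b = if a = 0 then 0 else cf F d (a-1) b := by
  cases a with
  | zero => simp [cf_x3_mul_zero]
  | succ a => simp [cf_x3_mul_succ]

end Pool.Agent.Helper516.GW
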