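import Pool.Agent.Helper516.GW.Defs
import Pool.Agent.Helper516.GW.Ser

open Finset
open scoped Nat

namespace Pool.Agent.Helper516.GW

noncomputable def P (N : ℕ → ℕ → ℕ → ℚ) (i j k : ℕ) : T :=
  ser fun d a b => corr N i j k d a b / ((a ! : ℚ) * (b ! : ℚ))

noncomputable def G (N : ℕ → ℕ → ℕ → ℚ) : T :=
  ser fun d a b => N d a b / ((a ! : ℚ) * (b ! : ℚ))

theorem split_cf (N : ℕ → ℕ → ℕ → ℚ) (i j k l d a b : ℕ) :
    split N i j k l d a b / ((a ! : ℚ) * (b ! : ℚ)) =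
      cf (∑ e ∈ range 4, P N i j e * P N (3 - e) k l) d a b := by
  rw [cf_sum]
  simp_rw [cf_mul, P, cf_ser]
  unfold split
  rw [Finset.sum_div, Finset.sum_comm]
  refine Finset.sum_congr rfl fun x _ => ?_
  rw [Finset.sum_div, Finset.sum_comm]
  refine Finset.sum_congr rfl fun y hy => ?_
  rw [Finset.sum_div, Finset.sum_comm]
  refine Finset.sum_congr rfl fun z hz => ?_
  rw [Finset.HasAntidiagonal.mem_antidiagonal] at hy hz
  rw [Finset.mul_sum, Finset.sum_div]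
  refine Finset.sum_congr rfl fun e _ => ?_
  have h1 : ((a.choose y.1 : ℚ)) * (y.1 ! : ℚ) * (y.2 ! : ℚ) = (a ! : ℚ) := by
    rw [← hy, Nat.choose_symm_add]; exact_mod_cast Nat.add_choose_mul_factorial_mul_factorial y.1 y.2
  have h2 : ((b.choose z.1 : ℚ)) * (z.1 ! : ℚ) * (z.2 ! : ℚ) = (b ! : ℚ) := by
    rw [← hz, Nat.choose_symm_add]; exact_mod_cast Nat.add_choose_mul_factorial_mul_factorial z.1 z.2
  have p1 : (y.1 ! : ℚ) ≠ 0 := by positivity
  have p2 : (y.2 ! : ℚ) ≠ 0 := by positivity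
  have p3 : (z.1 ! : ℚ) ≠ 0 := by positivity
  have p4 : (z.2 ! : ℚ) ≠ 0 := by positivity
  have pa : (a ! : ℚ) ≠ 0 := by positivity
  have pb : (b ! : ℚ) ≠ 0 := by positivity
  have e1 : ((a.choose y.1 : ℚ)) / (a ! : ℚ) = 1 / ((y.1 ! : ℚ) * (y.2 ! : ℚ)) := by
    rw [div_eq_div_iff pa (mul_ne_zero p1 p2), ← h1]; ring
  have e2 : ((b.choose z.1 : ℚ)) / (b ! : ℚ) = 1 / ((z.1 ! : ℚ) * (z.2 ! : ℚ)) := by
    rw [div_eq_div_iff pb (mul_ne_zero p3 p4), ← h2]; ring
  calc (a.choose y.1 : ℚ) * (b.choose z.1 : ℚ) *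
          (corr N i j e x.1 y.1 z.1 * corr N (3 - e) k l x.2 y.2 z.2) / ((a ! : ℚ) * (b ! : ℚ))
      = ((a.choose y.1 : ℚ) / (a ! : ℚ)) * ((b.choose z.1 : ℚ) / (b ! : ℚ)) *
          (corr N i j e x.1 y.1 z.1 * corr N (3 - e) k l x.2 y.2 z.2) := by
        field_simp
    _ = _ := by rw [e1, e2]; field_simp

theorem wdvv_T {N : ℕ → ℕ → ℕ → ℚ} {i j k l : ℕ}
    (h : ∀ d a b : ℕ, split N i j k l d a b = split N i k j l d a b) :
    ∑ e ∈ range 4, P N i j e * P N (3 - e) k l = ∑ e ∈ range 4, P N i k e * P N (3 - e) j l := by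
  apply T_ext
  intro d a b
  rw [← split_cf, ← split_cf, h]

theorem wdvv_of_T {N : ℕ → ℕ → ℕ → ℚ} {i j k l : ℕ} {d a b : ℕ}
    (h : cf (∑ e ∈ range 4, P N i j e * P N (3 - e) k l) d a b =
      cf (∑ e ∈ range 4, P N i k e * P N (3 - e) j l) d a b) :
    split N i j k l d a b = split N i k j l d a b := by
  rw [← split_cf, ← split_cf] at h
  have pa : (a ! : ℚ) ≠ 0 := by positivity
  have pb : (b ! : ℚ) ≠ 0 := by positivity
  field_simp at h
  exact h

/-- derivative in direction i -/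
noncomputable def Dn (i : ℕ) (F : T) : T :=
  if i = 1 then D1 F else if i = 2 then D2 F else if i = 3 then D3 F else 0

@[simp] theorem Dn_one (F : T) : Dn 1 F = D1 F := by simp [Dn]
@[simp] theorem Dn_two (F : T) : Dn 2 F = D2 F := by simp [Dn]
@[simp] theorem Dn_three (F : T) : Dn 3 F = D3 F := by simp [Dn]
@[simp] theorem Dn_zero (F : T) : Dn 0 F = 0 := by simp [Dn]

theorem P_zero_left (N : ℕ → ℕ → ℕ → ℚ) (j k : ℕ) :
    P N 0 j k = if j + k = 3 then 1 else 0 := by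
  apply T_ext
  intro d a b
  by_cases h : j + k = 3
  · simp only [P, cf_ser, corr, h, if_true, cf_one]
    by_cases hd : d = 0
    · by_cases ha : a = 0
      · by_cases hb : b = 0
        · subst hd ha hb; simp [h]
        · simp [hd, ha, hb]
      · simp [hd, ha]
    · simp [hd]
  · simp only [P, cf_ser, corr, h, if_false, cf_zero]
    by_cases hd : d = 0
    · simp [hd, h]
    · simp [hd]

end Pool.Agent.Helper516.GW
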