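import Pool.Agent.Helper516.GW.Phi

open Finset
open scoped Nat

namespace Pool.Agent.Helper516.GW

/-- general EGF array -/
noncomputable def E (f : ℕ → ℕ → ℕ → ℚ) : T :=
  ser fun d a b => f d a b / ((a ! : ℚ) * (b ! : ℚ))

theorem D1_E (f : ℕ → ℕ → ℕ → ℚ) : D1 (E f) = E fun d a b => d * f d a b := by
  apply T_ext; intro d a b
  simp only [E, cf_D1, cf_ser]
  ring

theorem D2_E (f : ℕ → ℕ → ℕ → ℚ) : D2 (E f) = E fun d a b => f d a (b+1) := by
  apply T_ext; intro d a b
  simp only [E, cf_D2, cf_ser, Nat.factorial_succ]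
  push_cast
  have pa : (a ! : ℚ) ≠ 0 := by positivity
  have pb : (b ! : ℚ) ≠ 0 := by positivity
  have pc : (b : ℚ) + 1 ≠ 0 := by positivity
  field_simp

theorem D3_E (f : ℕ → ℕ → ℕ → ℚ) : D3 (E f) = E fun d a b => f d (a+1) b := by
  apply T_ext; intro d a b
  simp only [E, cf_D3, cf_ser, Nat.factorial_succ]
  push_cast
  have pa : (a ! : ℚ) ≠ 0 := by positivity
  have pb : (b ! : ℚ) ≠ 0 := by positivity
  have pc : (a : ℚ) + 1 ≠ 0 := by positivity
  field_simp

theorem G_eq_E (N : ℕ → ℕ → ℕ → ℚ) : G N = E N := rfl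

theorem one_eq_E : (1 : T) = E fun d a b => if d = 0 ∧ a = 0 ∧ b = 0 then 1 else 0 := by
  apply T_ext; intro d a b
  rw [cf_one, E, cf_ser]
  by_cases h : d = 0 ∧ a = 0 ∧ b = 0
  · obtain ⟨rfl, rfl, rfl⟩ := h; simp
  · simp [h]

theorem E_add (f g : ℕ → ℕ → ℕ → ℚ) : E f + E g = E fun d a b => f d a b + g d a b := by
  apply T_ext; intro d a b
  simp only [E, cf_add, cf_ser]; ring

theorem P_pos {N : ℕ → ℕ → ℕ → ℚ} (hN : ∀ a b, N 0 a b = 0) (i j k : ℕ) (hi : 1 ≤ i) (hi' : i ≤ 3)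
    (hj : 1 ≤ j) (hj' : j ≤ 3) (hk : 1 ≤ k) (hk' : k ≤ 3) :
    P N i j k = (if i + j + k = 3 then 1 else 0) + Dn i (Dn j (Dn k (G N))) := by
  have hP : P N i j k = E (corr N i j k) := rfl
  rw [hP, G_eq_E]
  interval_cases i <;> interval_cases j <;> interval_cases k <;>
    simp only [Dn_one, Dn_two, Dn_three, D1_E, D2_E, D3_E] <;> norm_num <;>
    (try rw [one_eq_E, E_add]) <;>
    (congr 1; funext d a b; by_cases hd : d = 0 <;> simp [corr, hd, hN] <;> ring)

theorem P_all {N : ℕ → ℕ → ℕ → ℚ} (hN : ∀ a b, N 0 a b = 0) (i j k : ℕ) (hi' : i ≤ 3)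
    (hj' : j ≤ 3) (hk' : k ≤ 3) :
    P N i j k = (if i + j + k = 3 then 1 else 0) + Dn i (Dn j (Dn k (G N))) := by
  by_cases h : 1 ≤ i ∧ 1 ≤ j ∧ 1 ≤ k
  · exact P_pos hN i j k h.1 hi' h.2.1 hj' h.2.2 hk'
  · have h0 : Dn i (Dn j (Dn k (G N))) = 0 := by
      have hz : ∀ m, Dn m (0 : T) = 0 := by
        intro m; unfold Dn; split_ifs <;> simp
      by_cases hi : i = 0
      · subst hi; simp
      · by_cases hj : j = 0
        · subst hj; simp [hz]
        · have hk : k = 0 := by omega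
          subst hk; simp [hz]
    rw [h0, add_zero]
    apply T_ext; intro d a b
    have h1 : i = 0 ∨ j = 0 ∨ k = 0 := by omega
    simp only [P, cf_ser, corr, h1, if_true]
    by_cases h3 : i + j + k = 3
    · simp only [h3, true_and, if_true, cf_one]
      by_cases hd : d = 0
      · subst hd
        by_cases hab : a = 0 ∧ b = 0
        · obtain ⟨rfl, rfl⟩ := hab; simp
        · simp [hab]
      · simp [hd]
    · by_cases hd : d = 0 <;> simp [hd, h3]

/-- the WDVV equations used, as equations of power series -/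
structure Eqs (G : T) : Prop where
  A : D2 (D2 (D2 G)) + D1 (D1 (D1 G)) * D2 (D2 (D2 G)) =
    2 * D1 (D2 (D3 G)) + D1 (D1 (D2 G)) * D1 (D2 (D2 G))
  B : D2 (D2 (D3 G)) + D1 (D1 (D1 G)) * D2 (D2 (D3 G)) =
    D1 (D3 (D3 G)) + D1 (D2 (D2 G)) * D1 (D1 (D3 G))
  D : D2 (D3 (D3 G)) + D1 (D1 (D2 G)) * D2 (D2 (D3 G)) =
    D2 (D2 (D2 G)) * D1 (D1 (D3 G))
  E : D3 (D3 (D3 G)) + D1 (D1 (D2 G)) * D2 (D3 (D3 G)) + D1 (D2 (D2 G)) * D1 (D3 (D3 G)) =
    D1 (D2 (D3 G)) * D1 (D2 (D3 G)) + D1 (D1 (D3 G)) * D2 (D2 (D3 G))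

theorem IsCount.zero {N : ℕ → ℕ → ℕ → ℚ} (h : IsCount N) (a b : ℕ) : N 0 a b = 0 := by
  by_contra h0
  have := (h.dim 0 a b h0).1
  omega

theorem IsCount.eqs {N : ℕ → ℕ → ℕ → ℚ} (h : IsCount N) : Eqs (G N) := by
  have hN := h.zero
  have key : ∀ i j k l : ℕ, i ≤ 3 → j ≤ 3 → k ≤ 3 → l ≤ 3 →
    ∑ e ∈ range 4, P N i j e * P N (3 - e) k l = ∑ e ∈ range 4, P N i k e * P N (3 - e) j l :=
    fun i j k l hi hj hk hl => wdvv_T (h.wdvv i j k l hi hj hk hl)
  have c12 : ∀ F : T, D2 (D1 F) = D1 (D2 F) := fun F => (D12 F).symm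
  have c13 : ∀ F : T, D3 (D1 F) = D1 (D3 F) := fun F => (D13 F).symm
  have c23 : ∀ F : T, D3 (D2 F) = D2 (D3 F) := fun F => (D23 F).symm
  constructor
  · have := key 1 1 2 2 (by norm_num) (by norm_num) (by norm_num) (by norm_num)
    simp (disch := norm_num) only [Finset.sum_range_succ, Finset.sum_range_zero, P_all hN] at this
    norm_num at this
    simp only [c12, c13, c23] at this
    linear_combination this
  · have := key 1 1 2 3 (by norm_num) (by norm_num) (by norm_num) (by norm_num)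
    simp (disch := norm_num) only [Finset.sum_range_succ, Finset.sum_range_zero, P_all hN] at this
    norm_num at this
    simp only [c12, c13, c23] at this
    linear_combination this
  · have := key 1 2 3 2 (by norm_num) (by norm_num) (by norm_num) (by norm_num)
    simp (disch := norm_num) only [Finset.sum_range_succ, Finset.sum_range_zero, P_all hN] at this
    norm_num at this
    simp only [c12, c13, c23] at this
    linear_combination this
  · have := key 1 2 3 3 (by norm_num) (by norm_num) (by norm_num) (by norm_num)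
    simp (disch := norm_num) only [Finset.sum_range_succ, Finset.sum_range_zero, P_all hN] at this
    norm_num at this
    simp only [c12, c13, c23] at this
    linear_combination this

end Pool.Agent.Helper516.GW
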