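import Mathlib

open Finset

namespace Pool.Agent.Helper516.GW

theorem wy_trip_swap (d : ℕ) (f : ℕ → ℕ → ℕ → ℚ) :
    ∑ x ∈ antidiagonal d, ∑ z ∈ antidiagonal x.1, f z.1 z.2 x.2 =
      ∑ x ∈ antidiagonal d, ∑ z ∈ antidiagonal x.1, f x.2 z.2 z.1 := by
  rw [Finset.sum_sigma', Finset.sum_sigma']
  refine Finset.sum_nbij'
    (fun a : (_ : ℕ × ℕ) × (ℕ × ℕ) => ⟨(a.1.2 + a.2.2, a.2.1), (a.1.2, a.2.2)⟩)
    (fun a : (_ : ℕ × ℕ) × (ℕ × ℕ) => ⟨(a.1.2 + a.2.2, a.2.1), (a.1.2, a.2.2)⟩) ?_ ?_ ?_ ?_ ?_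
  · rintro ⟨⟨i, j⟩, ⟨k, l⟩⟩ h
    simp only [mem_sigma, HasAntidiagonal.mem_antidiagonal] at h ⊢
    exact ⟨by omega, trivial⟩
  · rintro ⟨⟨i, j⟩, ⟨k, l⟩⟩ h
    simp only [mem_sigma, HasAntidiagonal.mem_antidiagonal] at h ⊢
    exact ⟨by omega, trivial⟩
  · rintro ⟨⟨i, j⟩, ⟨k, l⟩⟩ h
    simp only [mem_sigma, HasAntidiagonal.mem_antidiagonal] at h ⊢
    rw [h.2]
  · rintro ⟨⟨i, j⟩, ⟨k, l⟩⟩ h
    simp only [mem_sigma, HasAntidiagonal.mem_antidiagonal] at h ⊢
    rw [h.2]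
  · rintro ⟨⟨i, j⟩, ⟨k, l⟩⟩ h
    rfl

theorem wy_bracket (k l j a b c : ℚ) (hk : 1 ≤ k) (hl : 1 ≤ l) (hj : 1 ≤ j) (ha : 0 ≤ a)
    (hb : 0 ≤ b) (hc : 0 ≤ c) :
    0 ≤ 2 * j ^ 2 * (k + l - j) * (k ^ 3 * a * b / (2 * (k + l) - 1)) * c +
      2 * k ^ 2 * (j + l - k) * (j ^ 3 * c * b / (2 * (j + l) - 1)) * a := by
  have h1 : 0 < 2 * (k + l) - 1 := by linarith
  have h2 : 0 < 2 * (j + l) - 1 := by linarith
  have e : 2 * j ^ 2 * (k + l - j) * (k ^ 3 * a * b / (2 * (k + l) - 1)) * c +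
      2 * k ^ 2 * (j + l - k) * (j ^ 3 * c * b / (2 * (j + l) - 1)) * a =
      (2 * k ^ 2 * j ^ 2 * (a * b * c)) *
        (4 * j * k * l + l * (2 * l - 1) * (j + k) + (2 * l - 1) * (k - j) ^ 2) /
          ((2 * (k + l) - 1) * (2 * (j + l) - 1)) := by
    field_simp
    ring
  rw [e]
  have h3 : 0 ≤ 2 * l - 1 := by linarith
  have hk0 : 0 ≤ k := by linarith
  have hl0 : 0 ≤ l := by linarith
  have hj0 : 0 ≤ j := by linarith
  apply div_nonneg _ (by positivity)
  apply mul_nonneg (by positivity)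
  have := mul_nonneg (mul_nonneg hl0 h3) (add_nonneg hj0 hk0)
  have := mul_nonneg h3 (sq_nonneg (k - j))
  have := mul_nonneg (mul_nonneg hj0 hk0) hl0
  nlinarith

theorem wy_pos (w y : ℕ → ℚ) (hw0 : w 0 = 0) (hy0 : y 0 = 0) (hw1 : w 1 = 1 / 2)
    (h1 : ∀ d : ℕ, (2 * (d : ℚ) - 1) * y d = 2 * (d : ℚ) ^ 2 * (2 * d - 1) * w d +
      ∑ x ∈ antidiagonal d, (x.1 : ℚ) ^ 3 * w x.1 * y x.2)
    (h2 : ∀ d : ℕ, (2 * (d : ℚ)) * (2 * d - 1) * (2 * d - 2) * w d =
      ∑ x ∈ antidiagonal d, 2 * (x.2 : ℚ) ^ 2 * ((x.1 : ℚ) - x.2) * y x.1 * w x.2) :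
    ∀ d, 0 ≤ w d ∧ 0 ≤ y d ∧ (1 ≤ d → 0 < y d) := by
  have hne : ∀ i : ℕ, 2 * (i : ℚ) - 1 ≠ 0 := by
    intro i h
    have h1 : (2 * (i : ℤ) - 1 : ℤ) = 0 := by
      have : ((2 * (i : ℤ) - 1 : ℤ) : ℚ) = 0 := by push_cast; exact h
      exact_mod_cast this
    omega
  have hy : ∀ i : ℕ, y i = 2 * (i : ℚ) ^ 2 * w i +
      (∑ z ∈ (antidiagonal i : Finset (ℕ × ℕ)), (z.1 : ℚ) ^ 3 * w z.1 * y z.2) / (2 * (i : ℚ) - 1) := by
    intro i
    have h3 := h1 i
    have h4 := hne i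
    rw [eq_comm, ← sub_eq_zero]
    have h5 : ∑ z ∈ antidiagonal i, (z.1 : ℚ) ^ 3 * w z.1 * y z.2 =
        (2 * (i : ℚ) - 1) * (y i - 2 * (i : ℚ) ^ 2 * w i) := by
      linear_combination -h3
    rw [h5, mul_div_cancel_left₀ _ h4]
    ring
  intro d
  induction d using Nat.strong_induction_on with
  | _ d ih =>
    rcases Nat.lt_or_ge d 2 with hd | hd
    · interval_cases d
      · refine ⟨hw0.ge, hy0.ge, fun h => absurd h (by norm_num)⟩
      · have h3 := h1 1
        have h4 : ∑ x ∈ antidiagonal (1 : ℕ), (x.1 : ℚ) ^ 3 * w x.1 * y x.2 = 0 := by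
          rw [Finset.Nat.antidiagonal_succ]
          simp [hy0]
        rw [h4, hw1] at h3
        norm_num at h3
        rw [hw1, h3]
        norm_num
    · -- the double sum
      set g : ℕ → ℕ → ℕ → ℚ := fun k l j =>
        2 * (j : ℚ) ^ 2 * ((k : ℚ) + l - j) * ((k : ℚ) ^ 3 * w k * y l / (2 * ((k : ℚ) + l) - 1)) * w j
        with hg
      have hsym : ∑ x ∈ antidiagonal d, 2 * (x.2 : ℚ) ^ 2 * ((x.1 : ℚ) - x.2) *
          (2 * (x.1 : ℚ) ^ 2 * w x.1) * w x.2 = 0 := by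
        have h3 := Finset.Nat.sum_antidiagonal_swap (n := d)
          (f := fun x : ℕ × ℕ => 2 * (x.2 : ℚ) ^ 2 * ((x.1 : ℚ) - x.2) *
          (2 * (x.1 : ℚ) ^ 2 * w x.1) * w x.2)
        have h4 : ∑ p ∈ antidiagonal d, (fun x : ℕ × ℕ => 2 * (x.2 : ℚ) ^ 2 * ((x.1 : ℚ) - x.2) *
          (2 * (x.1 : ℚ) ^ 2 * w x.1) * w x.2) p.swap = - ∑ x ∈ antidiagonal d,
            2 * (x.2 : ℚ) ^ 2 * ((x.1 : ℚ) - x.2) * (2 * (x.1 : ℚ) ^ 2 * w x.1) * w x.2 := by
          rw [← Finset.sum_neg_distrib]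
          apply Finset.sum_congr rfl
          intro p _
          simp only [Prod.fst_swap, Prod.snd_swap]
          ring
        rw [h4] at h3
        simp only at h3
        linarith
      have hkey : (2 * (d : ℚ)) * (2 * d - 1) * (2 * d - 2) * w d =
          ∑ x ∈ antidiagonal d, ∑ z ∈ antidiagonal x.1, g z.1 z.2 x.2 := by
        rw [h2 d, ← add_zero (∑ x ∈ antidiagonal d, ∑ z ∈ antidiagonal x.1, g z.1 z.2 x.2), ← hsym,
          ← Finset.sum_add_distrib]
        apply Finset.sum_congr rfl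
        intro x hx
        have h3 : ∑ z ∈ antidiagonal x.1, g z.1 z.2 x.2 = 2 * (x.2 : ℚ) ^ 2 * ((x.1 : ℚ) - x.2) *
            ((∑ z ∈ antidiagonal x.1, (z.1 : ℚ) ^ 3 * w z.1 * y z.2) / (2 * (x.1 : ℚ) - 1)) *
            w x.2 := by
          rw [Finset.sum_div, Finset.mul_sum, Finset.sum_mul]
          apply Finset.sum_congr rfl
          intro z hz
          rw [HasAntidiagonal.mem_antidiagonal] at hz
          have h4 : (x.1 : ℚ) = (z.1 : ℚ) + z.2 := by
            rw [← hz]; push_cast; ring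
          simp only [hg]
          rw [h4]
        rw [h3]
        conv_lhs => rw [hy x.1]
        ring
      have hnn : 0 ≤ ∑ x ∈ antidiagonal d, ∑ z ∈ antidiagonal x.1, g z.1 z.2 x.2 := by
        have h3 : ∑ x ∈ antidiagonal d, ∑ z ∈ antidiagonal x.1, (g z.1 z.2 x.2 + g x.2 z.2 z.1) =
            2 * ∑ x ∈ antidiagonal d, ∑ z ∈ antidiagonal x.1, g z.1 z.2 x.2 := by
          simp only [Finset.sum_add_distrib]
          rw [← wy_trip_swap d g]
          ring
        have h4 : 0 ≤ ∑ x ∈ antidiagonal d, ∑ z ∈ antidiagonal x.1,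
            (g z.1 z.2 x.2 + g x.2 z.2 z.1) := by
          apply Finset.sum_nonneg
          intro x hx
          apply Finset.sum_nonneg
          intro z hz
          rw [HasAntidiagonal.mem_antidiagonal] at hx hz
          obtain ⟨i, j⟩ := x
          obtain ⟨k, l⟩ := z
          simp only at hx hz ⊢
          rcases Nat.eq_zero_or_pos k with hk | hk
          · subst hk
            simp [hg]
          rcases Nat.eq_zero_or_pos j with hj | hj
          · subst hj
            simp [hg]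
          rcases Nat.eq_zero_or_pos l with hl | hl
          · subst hl
            simp [hg, hy0]
          exact wy_bracket k l j (w k) (y l) (w j) (by exact_mod_cast hk) (by exact_mod_cast hl)
            (by exact_mod_cast hj) (ih k (by omega)).1 (ih l (by omega)).2.1 (ih j (by omega)).1
        linarith
      have hdq : (2 : ℚ) ≤ d := by exact_mod_cast hd
      have hw : 0 ≤ w d := by
        rw [← hkey] at hnn
        have h3 : 0 < (2 * (d : ℚ)) * (2 * d - 1) * (2 * d - 2) := by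
          apply mul_pos (mul_pos _ _) _ <;> linarith
        by_contra hneg
        push Not at hneg
        have := mul_neg_of_pos_of_neg h3 hneg
        linarith
      have hS : 0 < ∑ z ∈ antidiagonal d, (z.1 : ℚ) ^ 3 * w z.1 * y z.2 := by
        apply Finset.sum_pos'
        · rintro ⟨k, l⟩ hz
          rw [HasAntidiagonal.mem_antidiagonal] at hz
          simp only at hz ⊢
          rcases Nat.eq_zero_or_pos k with hk | hk
          · subst hk
            simp
          rcases Nat.eq_zero_or_pos l with hl | hl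
          · subst hl
            simp [hy0]
          have h3 := (ih k (by omega)).1
          have h4 := (ih l (by omega)).2.1
          positivity
        · refine ⟨(1, d - 1), ?_, ?_⟩
          · rw [HasAntidiagonal.mem_antidiagonal]
            simp only
            omega
          · have h3 := (ih (d - 1) (by omega)).2.2 (by omega)
            simp only [Nat.cast_one, one_pow, one_mul, hw1]
            positivity
      have hyd : 0 < y d := by
        rw [hy d]
        have h3 : 0 < 2 * (d : ℚ) - 1 := by linarith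
        have h4 := div_pos hS h3
        have h5 : 0 ≤ 2 * (d : ℚ) ^ 2 * w d := by positivity
        linarith
      exact ⟨hw, hyd.le, fun _ => hyd⟩

end Pool.Agent.Helper516.GW
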