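import Pool.Agent.Helper516.GW.Num
import Pool.Agent.Helper516.GW.WY

open Finset
open scoped Nat

namespace Pool.Agent.Helper516.GW

variable {N : ℕ → ℕ → ℕ → ℚ}

theorem wwyy (h : IsCount N) : ∀ d, 0 ≤ ww N d ∧ 0 ≤ yy N d ∧ (1 ≤ d → 0 < yy N d) := by
  apply wy_pos (ww N) (yy N)
  · exact uu_zero h _ _
  · simp [yy, uu_zero h]
  · simp [ww, uu_one h]
  · exact rel1 h
  · exact rel2 h

/-- all counts are nonnegative -/
theorem uu_nonneg (h : IsCount N) : ∀ d a b, 0 ≤ uu N d a b := by
  intro d
  induction d using Nat.strong_induction_on with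
  | _ d ihd =>
    intro a b
    induction b using Nat.strong_induction_on generalizing a with
    | _ b ihb =>
      by_cases hd : 1 ≤ d ∧ 2 * a + b = 4 * d
      · rcases Nat.lt_or_ge b 2 with hb | hb
        · have hb0 : b = 0 := by omega
          subst hb0
          have ha : a = 2 * d := by omega
          subst ha
          exact (wwyy h d).1
        · obtain ⟨b, rfl⟩ : ∃ b', b = b' + 2 := ⟨b - 2, by omega⟩
          have hs := star h d a b
          have hd1 : (1 : ℚ) ≤ d := by exact_mod_cast hd.1
          have h1 : 0 ≤ d * ((a : ℚ) + 1) * (a + b) * uu N d (a + 1) b := by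
            have := ihb b (by omega) (a + 1)
            positivity
          have h2 : 0 ≤ ∑ x ∈ antidiagonal d, ∑ y ∈ antidiagonal a, ∑ z ∈ antidiagonal b,
        ((x.1 : ℚ) ^ 3 * uu N x.1 y.1 z.1) * ((z.2 + 2) * (z.2 + 1) * uu N x.2 y.2 (z.2 + 2)) := by
            refine Finset.sum_nonneg fun x hx => Finset.sum_nonneg fun y _ =>
              Finset.sum_nonneg fun z _ => ?_
            rw [Finset.HasAntidiagonal.mem_antidiagonal] at hx
            rcases Nat.eq_zero_or_pos x.1 with h0 | h0
            · rw [h0]; simp
            rcases Nat.eq_zero_or_pos x.2 with h0' | h0'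
            · rw [h0', uu_zero h]; simp
            have i1 := ihd x.1 (by omega) y.1 z.1
            have i2 := ihd x.2 (by omega) y.2 (z.2 + 2)
            positivity
          have h3 : 0 < (2 * (d : ℚ) - 1) * (b + 2) * (b + 1) := by
            have : 0 < 2 * (d : ℚ) - 1 := by linarith
            positivity
          by_contra hneg
          push Not at hneg
          have := mul_neg_of_pos_of_neg h3 hneg
          linarith
      · rw [uu_eq_zero h hd]

theorem uu_pos (h : IsCount N) {d : ℕ} (hd : 1 ≤ d) : ∀ b a, 2 ≤ b → 2 * a + b = 4 * d →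
    0 < uu N d a b := by
  intro b
  induction b using Nat.strong_induction_on with
  | _ b ihb =>
    intro a hb hab
    rcases Nat.lt_or_ge b 4 with hb4 | hb4
    · have hb2 : b = 2 := by omega
      subst hb2
      have ha : a = 2 * d - 1 := by omega
      subst ha
      have := (wwyy h d).2.2 hd
      unfold yy at this
      linarith
    · obtain ⟨b, rfl⟩ : ∃ b', b = b' + 2 := ⟨b - 2, by omega⟩
      have hs := star h d a b
      have hd1 : (1 : ℚ) ≤ d := by exact_mod_cast hd
      have hb1 : (2 : ℚ) ≤ b := by
        have : 2 ≤ b := by omega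
        exact_mod_cast this
      have h1 : 0 < d * ((a : ℚ) + 1) * (a + b) * uu N d (a + 1) b := by
        have := ihb b (by omega) (a + 1) (by omega) (by omega)
        positivity
      have h2 : 0 ≤ ∑ x ∈ antidiagonal d, ∑ y ∈ antidiagonal a, ∑ z ∈ antidiagonal b,
        ((x.1 : ℚ) ^ 3 * uu N x.1 y.1 z.1) * ((z.2 + 2) * (z.2 + 1) * uu N x.2 y.2 (z.2 + 2)) := by
        refine Finset.sum_nonneg fun x hx => Finset.sum_nonneg fun y _ =>
          Finset.sum_nonneg fun z _ => ?_
        have i1 := uu_nonneg h x.1 y.1 z.1
        have i2 := uu_nonneg h x.2 y.2 (z.2 + 2)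
        positivity
      have h3 : 0 < (2 * (d : ℚ) - 1) * (b + 2) * (b + 1) := by
        have : 0 < 2 * (d : ℚ) - 1 := by linarith
        positivity
      by_contra hneg
      push Not at hneg
      have := mul_nonpos_of_nonneg_of_nonpos h3.le hneg
      linarith

end Pool.Agent.Helper516.GW
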