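import Pool.Agent.Helper516.GW.Phi2

open Finset
open scoped Nat

namespace Pool.Agent.Helper516.GW

def Supp (s : ℕ) (F : T) : Prop := ∀ d a b, cf F d a b ≠ 0 → 2 * a + b + s = 4 * d

theorem cf_x2_D2 (F : T) (d a b : ℕ) : cf (x2 * D2 F) d a b = b * cf F d a b := by
  cases b with
  | zero => simp [cf_x2_mul_zero]
  | succ b => rw [cf_x2_mul_succ, cf_D2]; push_cast; ring

theorem cf_x3_D3 (F : T) (d a b : ℕ) : cf (x3 * D3 F) d a b = a * cf F d a b := by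
  cases a with
  | zero => simp [cf_x3_mul_zero]
  | succ b => rw [cf_x3_mul_succ, cf_D3]; push_cast; ring

theorem euler {s : ℕ} {F : T} (h : Supp s F) :
    x2 * D2 F + 2 * (x3 * D3 F) + (s : T) * F = 4 * D1 F := by
  apply T_ext
  intro d a b
  rw [cf_add, cf_add, cf_x2_D2, cf_two_mul, cf_x3_D3, cf_natCast_mul, cf_four_mul, cf_D1]
  by_cases h0 : cf F d a b = 0
  · simp [h0]
  · have := h d a b h0
    have h2 : (4 : ℚ) * d = 2 * a + b + s := by exact_mod_cast this.symm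
    linear_combination (-(cf F d a b)) * h2

theorem Supp.D1 {s : ℕ} {F : T} (h : Supp s F) : Supp s (D1 F) := by
  intro d a b h0
  rw [cf_D1] at h0
  exact h d a b (right_ne_zero_of_mul h0)

theorem Supp.D2 {s : ℕ} {F : T} (h : Supp s F) : Supp (s + 1) (D2 F) := by
  intro d a b h0
  rw [cf_D2] at h0
  have := h d a (b+1) (right_ne_zero_of_mul h0)
  omega

theorem Supp.D3 {s : ℕ} {F : T} (h : Supp s F) : Supp (s + 2) (D3 F) := by
  intro d a b h0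
  rw [cf_D3] at h0
  have := h d (a+1) b (right_ne_zero_of_mul h0)
  omega

theorem IsCount.supp {N : ℕ → ℕ → ℕ → ℚ} (h : IsCount N) : Supp 0 (G N) := by
  intro d a b h0
  rw [G, cf_ser] at h0
  have h1 : N d a b ≠ 0 := by
    intro h1; rw [h1] at h0; simp at h0
  have := (h.dim d a b h1).2
  omega

/-- the key identity -/
theorem star_T {G : T} (hE : Eqs G) (hS : Supp 0 G) :
    4 * D1 (D2 (D2 G)) = 2 * D2 (D2 G) + 2 * (x2 * D2 (D1 (D3 G)) + x3 * D3 (D1 (D3 G))) +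
      2 * (D1 (D1 (D1 G)) * D2 (D2 G)) := by
  have e22 := euler (hS.D2.D2)
  have e11 := euler (hS.D1.D1)
  have hA := hE.A
  have hB := hE.B
  have c1 : D3 (D2 (D2 G)) = D2 (D2 (D3 G)) := by rw [← D23, ← D23]
  have c2 : D2 (D1 (D1 G)) = D1 (D1 (D2 G)) := by rw [← D12, ← D12]
  have c3 : D3 (D1 (D1 G)) = D1 (D1 (D3 G)) := by rw [← D13, ← D13]
  have c4 : D2 (D1 (D3 G)) = D1 (D2 (D3 G)) := (D12 (D3 G)).symm
  have c5 : D3 (D1 (D3 G)) = D1 (D3 (D3 G)) := (D13 (D3 G)).symm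
  rw [c1] at e22
  rw [c2, c3] at e11
  rw [c4, c5]
  push_cast at e22 e11
  linear_combination x2 * hA + 2 * x3 * hB - (1 + D1 (D1 (D1 G))) * e22 + D1 (D2 (D2 G)) * e11

/-- normalised counts -/
noncomputable def uu (N : ℕ → ℕ → ℕ → ℚ) (d a b : ℕ) : ℚ := N d a b / ((a ! : ℚ) * (b ! : ℚ))

theorem cf_G (N : ℕ → ℕ → ℕ → ℚ) (d a b : ℕ) : cf (G N) d a b = uu N d a b := by
  simp [G, uu]

theorem star {N : ℕ → ℕ → ℕ → ℚ} (h : IsCount N) (d a b : ℕ) :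
    (2 * (d : ℚ) - 1) * (b + 2) * (b + 1) * uu N d a (b + 2) =
      d * (a + 1) * (a + b) * uu N d (a + 1) b +
      ∑ x ∈ antidiagonal d, ∑ y ∈ antidiagonal a, ∑ z ∈ antidiagonal b,
        ((x.1 : ℚ) ^ 3 * uu N x.1 y.1 z.1) * ((z.2 + 2) * (z.2 + 1) * uu N x.2 y.2 (z.2 + 2)) := by
  have h1 := congrArg (fun F => cf F d a b) (star_T h.eqs h.supp)
  simp only [cf_add, cf_four_mul, cf_two_mul, cf_x2_D2, cf_x3_D3] at h1
  simp only [cf_D1, cf_D2, cf_D3, cf_mul, cf_G] at h1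
  have h2 : ∑ x ∈ antidiagonal d, ∑ y ∈ antidiagonal a, ∑ z ∈ antidiagonal b,
        ((x.1 : ℚ) ^ 3 * uu N x.1 y.1 z.1) * ((z.2 + 2) * (z.2 + 1) * uu N x.2 y.2 (z.2 + 2)) =
      ∑ x ∈ antidiagonal d, ∑ y ∈ antidiagonal a, ∑ z ∈ antidiagonal b,
       (x.1 : ℚ) * (↑x.1 * (↑x.1 * uu N x.1 y.1 z.1)) *
        ((↑z.2 + 1) * ((↑(z.2 + 1) + 1) * uu N x.2 y.2 (z.2 + 1 + 1))) := by
    refine Finset.sum_congr rfl fun x _ => Finset.sum_congr rfl fun y _ =>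
      Finset.sum_congr rfl fun z _ => ?_
    push_cast
    ring
  rw [h2]
  push_cast at h1 ⊢
  linear_combination h1 / 2

end Pool.Agent.Helper516.GW
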