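import Pool.Agent.Helper516.GW.Van
import Pool.Agent.Helper516.GW.Star

open Finset
open scoped Nat

namespace Pool.Agent.Helper516.GW

def gg2 (eD : ℕ → ℕ → ℚ) : ℕ → ℚ
  | 0 => 0
  | b + 1 => -eD 0 b / (2 * (b + 1))

def gg1 (eB eD : ℕ → ℕ → ℚ) (d : ℚ) : ℕ → ℚ
  | 0 => 0
  | 1 => 0
  | b + 2 => (2 * d * gg2 eD b - eB 0 b) / ((b + 2) * (b + 1))

def gg0 (eA eB eD : ℕ → ℕ → ℚ) (d : ℚ) : ℕ → ℚ
  | 0 => 0
  | 1 => 0
  | 2 => 0
  | b + 3 => (2 * d * (b + 1) * gg1 eB eD d (b + 1) - eA 0 b) / ((b + 3) * (b + 2) * (b + 1))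

def gg (eA eB eD eE : ℕ → ℕ → ℚ) (d : ℚ) : ℕ → ℕ → ℚ
  | 0, b => gg0 eA eB eD d b
  | 1, b => gg1 eB eD d b
  | 2, b => gg2 eD b
  | a + 3, b => -eE a b / ((a + 3) * (a + 2) * (a + 1))

section
variable {eA eB eD eE : ℕ → ℕ → ℚ} {d : ℚ}

theorem j9739_WE (a b : ℕ) :
    ((a : ℚ) + 3) * (a + 2) * (a + 1) * gg eA eB eD eE d (a + 3) b = -eE a b := by
  simp only [gg]
  have h1 : (a : ℚ) + 1 ≠ 0 := by positivity
  have h2 : (a : ℚ) + 2 ≠ 0 := by positivity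
  have h3 : (a : ℚ) + 3 ≠ 0 := by positivity
  field_simp

theorem j9739_WD (K1 : ∀ a b : ℕ, ((a : ℚ) + 1) * eD (a + 1) b = (b + 1) * eE a (b + 1)) (a b : ℕ) :
    ((a : ℚ) + 2) * (a + 1) * (b + 1) * gg eA eB eD eE d (a + 2) (b + 1) = -eD a b := by
  cases a with
  | zero =>
    simp only [gg, gg2]
    have h1 : (b : ℚ) + 1 ≠ 0 := by positivity
    push_cast
    field_simp
    ring
  | succ a =>
    have h := K1 a b
    have h1 := j9739_WE (eA := eA) (eB := eB) (eD := eD) (eE := eE) (d := d) a (b + 1)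
    have ha : (a : ℚ) + 1 ≠ 0 := by positivity
    apply mul_left_cancel₀ ha
    push_cast
    show ((a : ℚ) + 1) * (((a : ℚ) + 1 + 2) * (a + 1 + 1) * (b + 1) *
      gg eA eB eD eE d (a + 3) (b + 1)) = (a + 1) * -eD (a + 1) b
    linear_combination (b + 1) * h1 + h

theorem j9739_WB (K1 : ∀ a b : ℕ, ((a : ℚ) + 1) * eD (a + 1) b = (b + 1) * eE a (b + 1))
    (K2 : ∀ a b : ℕ, ((a : ℚ) + 1) * eB (a + 1) b = (b + 1) * eD a (b + 1) - d * eE a b) (a b : ℕ) :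
    ((a : ℚ) + 1) * (b + 2) * (b + 1) * gg eA eB eD eE d (a + 1) (b + 2) -
      d * (a + 2) * (a + 1) * gg eA eB eD eE d (a + 2) b = -eB a b := by
  cases a with
  | zero =>
    simp only [gg, gg1]
    have h1 : (b : ℚ) + 1 ≠ 0 := by positivity
    have h2 : (b : ℚ) + 2 ≠ 0 := by positivity
    push_cast
    field_simp
    ring
  | succ a =>
    have h := K2 a b
    have h1 := j9739_WE (eA := eA) (eB := eB) (eD := eD) (eE := eE) (d := d) a b
    have h2 := j9739_WD (eA := eA) (eB := eB) (d := d) K1 a (b + 1)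
    have ha : (a : ℚ) + 1 ≠ 0 := by positivity
    apply mul_left_cancel₀ ha
    push_cast at h2 ⊢
    show ((a : ℚ) + 1) * (((a : ℚ) + 1 + 1) * (b + 2) * (b + 1) *
      gg eA eB eD eE d (a + 2) (b + 1 + 1) - d * (a + 1 + 2) * (a + 1 + 1) *
      gg eA eB eD eE d (a + 3) b) = (a + 1) * -eB (a + 1) b
    linear_combination (b + 1) * h2 - d * h1 + h

theorem j9739_WA (K1 : ∀ a b : ℕ, ((a : ℚ) + 1) * eD (a + 1) b = (b + 1) * eE a (b + 1))
    (K2 : ∀ a b : ℕ, ((a : ℚ) + 1) * eB (a + 1) b = (b + 1) * eD a (b + 1) - d * eE a b)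
    (K3 : ∀ a b : ℕ, ((a : ℚ) + 1) * eA (a + 1) b = (b + 1) * eB a (b + 1) - d * eD a b) (a b : ℕ) :
    ((b : ℚ) + 3) * (b + 2) * (b + 1) * gg eA eB eD eE d a (b + 3) -
      2 * d * (a + 1) * (b + 1) * gg eA eB eD eE d (a + 1) (b + 1) = -eA a b := by
  cases a with
  | zero =>
    simp only [gg, gg0]
    have h1 : (b : ℚ) + 1 ≠ 0 := by positivity
    have h2 : (b : ℚ) + 2 ≠ 0 := by positivity
    have h3 : (b : ℚ) + 3 ≠ 0 := by positivity
    push_cast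
    field_simp
    ring
  | succ a =>
    have h := K3 a b
    have h1 := j9739_WB (eA := eA) (eE := eE) (d := d) K1 K2 a (b + 1)
    have h2 := j9739_WD (eA := eA) (eB := eB) (d := d) K1 a b
    have ha : (a : ℚ) + 1 ≠ 0 := by positivity
    apply mul_left_cancel₀ ha
    push_cast at h1 ⊢
    change _ * (b + 1 + 2 : ℚ) * _ * gg eA eB eD eE d (a + 1) (b + 3) - _ * gg eA eB eD eE d (a + 2) (b + 1) = _ at h1
    show ((a : ℚ) + 1) * (((b : ℚ) + 3) * (b + 2) * (b + 1) *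
      gg eA eB eD eE d (a + 1) (b + 3) - 2 * d * (a + 1 + 1) * (b + 1) *
      gg eA eB eD eE d (a + 2) (b + 1)) = (a + 1) * -eA (a + 1) b
    linear_combination (b + 1) * h1 - d * h2 + h

theorem j9739_supp (m : ℕ) (sA : ∀ a b : ℕ, eA a b ≠ 0 → 2 * a + b + 3 = 4 * m)
    (sB : ∀ a b : ℕ, eB a b ≠ 0 → 2 * a + b + 4 = 4 * m)
    (sD : ∀ a b : ℕ, eD a b ≠ 0 → 2 * a + b + 5 = 4 * m)
    (sE : ∀ a b : ℕ, eE a b ≠ 0 → 2 * a + b + 6 = 4 * m) (a b : ℕ)
    (h : gg eA eB eD eE d a b ≠ 0) : 2 * a + b = 4 * m := by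
  have h2 : ∀ b : ℕ, gg2 eD b ≠ 0 → 4 + b = 4 * m := by
    intro b hb
    match b with
    | 0 => exact absurd rfl hb
    | b + 1 =>
      have : eD 0 b ≠ 0 := by
        intro h0
        apply hb
        simp [gg2, h0]
      have := sD 0 b this
      omega
  have h1 : ∀ b : ℕ, gg1 eB eD d b ≠ 0 → 2 + b = 4 * m := by
    intro b hb
    match b with
    | 0 => exact absurd rfl hb
    | 1 => exact absurd rfl hb
    | b + 2 =>
      by_cases hc : gg2 eD b = 0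
      · have : eB 0 b ≠ 0 := by
          intro h0
          apply hb
          simp [gg1, h0, hc]
        have := sB 0 b this
        omega
      · have := h2 b hc
        omega
  have h0 : ∀ b : ℕ, gg0 eA eB eD d b ≠ 0 → b = 4 * m := by
    intro b hb
    match b with
    | 0 => exact absurd rfl hb
    | 1 => exact absurd rfl hb
    | 2 => exact absurd rfl hb
    | b + 3 =>
      by_cases hc : gg1 eB eD d (b + 1) = 0
      · have : eA 0 b ≠ 0 := by
          intro h0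
          apply hb
          simp [gg0, h0, hc]
        have := sA 0 b this
        omega
      · have := h1 (b + 1) hc
        omega
  match a with
  | 0 => have := h0 b h; omega
  | 1 => have := h1 b h; omega
  | 2 => have := h2 b h; omega
  | a + 3 =>
    have : eE a b ≠ 0 := by
      intro h0
      apply h
      simp [gg, h0]
    have := sE a b this
    omega

end

theorem Supp.add {s : ℕ} {F H : T} (h : Supp s F) (h' : Supp s H) : Supp s (F + H) := by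
  intro d a b hc
  rw [cf_add] at hc
  by_cases h0 : cf F d a b = 0
  · rw [h0, zero_add] at hc
    exact h' d a b hc
  · exact h d a b h0

theorem Supp.sub {s : ℕ} {F H : T} (h : Supp s F) (h' : Supp s H) : Supp s (F - H) := by
  intro d a b hc
  rw [cf_sub] at hc
  by_cases h0 : cf F d a b = 0
  · rw [h0, zero_sub] at hc
    exact h' d a b (neg_ne_zero.1 hc)
  · exact h d a b h0

theorem Supp.two {s : ℕ} {F : T} (h : Supp s F) : Supp s (2 * F) := by
  intro d a b hc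
  rw [cf_two_mul] at hc
  exact h d a b (right_ne_zero_of_mul hc)

theorem Supp.mul {s t : ℕ} {F H : T} (h : Supp s F) (h' : Supp t H) : Supp (s + t) (F * H) := by
  intro d a b hc
  rw [cf_mul] at hc
  obtain ⟨x, hx, hc⟩ := Finset.exists_ne_zero_of_sum_ne_zero hc
  obtain ⟨y, hy, hc⟩ := Finset.exists_ne_zero_of_sum_ne_zero hc
  obtain ⟨z, hz, hc⟩ := Finset.exists_ne_zero_of_sum_ne_zero hc
  rw [Finset.HasAntidiagonal.mem_antidiagonal] at hx hy hz
  have h1 := h _ _ _ (left_ne_zero_of_mul hc)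
  have h2 := h' _ _ _ (right_ne_zero_of_mul hc)
  omega

theorem supp_dA {G : T} (h : Supp 0 G) : Supp 3 (dA G) :=
  (h.D2.D2.D2.add (h.D1.D1.D1.mul h.D2.D2.D2)).sub
    (h.D3.D2.D1.two.add (h.D2.D1.D1.mul h.D2.D2.D1))

theorem supp_dB {G : T} (h : Supp 0 G) : Supp 4 (dB G) :=
  (h.D3.D2.D2.add (h.D1.D1.D1.mul h.D3.D2.D2)).sub
    (h.D3.D3.D1.add (h.D2.D2.D1.mul h.D3.D1.D1))

theorem supp_dD {G : T} (h : Supp 0 G) : Supp 5 (dD G) :=
  (h.D3.D3.D2.add (h.D2.D1.D1.mul h.D3.D2.D2)).sub (h.D2.D2.D2.mul h.D3.D1.D1)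

theorem supp_dE {G : T} (h : Supp 0 G) : Supp 6 (dE G) :=
  ((h.D3.D3.D3.add (h.D2.D1.D1.mul h.D3.D3.D2)).add (h.D2.D2.D1.mul h.D3.D3.D1)).sub
    ((h.D3.D2.D1.mul h.D3.D2.D1).add (h.D3.D1.D1.mul h.D3.D2.D2))

theorem Van.cross {d : ℕ} (hd : 1 ≤ d) {F F' H H' : T} (hF : Van 1 F) (hF' : Van 1 F')
    (hH : Van d H) (hH' : Van d H') : Van (d + 1) (F * H' + H * F' + H * H') := by
  refine ((?_ : Van (d + 1) (F * H')).add ?_).add ?_
  · exact (hF.mul hH').mono (by omega)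
  · exact hH.mul hF'
  · exact (hH.mul hH').mono (by omega)

theorem Sol.step {n : ℕ} {u : ℕ → ℕ → ℕ → ℚ} (h : Sol n u) (hn : 1 ≤ n) :
    ∃ u', Sol (n + 1) u' ∧ ∀ d ≤ n, ∀ a b, u' d a b = u d a b := by
  classical
  set G : T := ser u with hG
  have hG1 : Van 1 G := by
    intro d hd a b
    rw [hG, cf_ser]
    by_contra h0
    have := (h.dim d a b h0).1
    omega
  have hsG : Supp 0 G := by
    intro d a b hc
    rw [hG, cf_ser] at hc
    have := (h.dim d a b hc).2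
    omega
  let eA : ℕ → ℕ → ℚ := fun a b => cf (dA G) (n + 1) a b
  let eB : ℕ → ℕ → ℚ := fun a b => cf (dB G) (n + 1) a b
  let eD : ℕ → ℕ → ℚ := fun a b => cf (dD G) (n + 1) a b
  let eE : ℕ → ℕ → ℚ := fun a b => cf (dE G) (n + 1) a b
  have K1 : ∀ a b : ℕ, ((a : ℚ) + 1) * eD (a + 1) b = (b + 1) * eE a (b + 1) := by
    intro a b
    have h1 := congrArg (fun F => cf F (n + 1) a b) (I1 G)
    simp only [cf_D3, cf_sub, cf_D2] at h1
    have h2 : Van (n + 1 + 1) (D1 (D2 (D2 (D3 G)) * dA G - D2 (D2 (D2 G)) * dB G +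
        D1 (D2 (D2 G)) * dD G)) := by
      refine Van.D1 ((Van.sub ?_ ?_).add ?_)
      · exact (hG1.D3.D2.D2.mul h.A).mono (by omega)
      · exact (hG1.D2.D2.D2.mul h.B).mono (by omega)
      · exact (hG1.D2.D2.D1.mul h.D).mono (by omega)
    rw [h2 (n + 1) (by omega) a b, sub_zero] at h1
    exact h1
  have K2 : ∀ a b : ℕ, ((a : ℚ) + 1) * eB (a + 1) b =
      (b + 1) * eD a (b + 1) - ((n + 1 : ℕ) : ℚ) * eE a b := by
    intro a b
    have h1 := congrArg (fun F => cf F (n + 1) a b) (I2 G)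
    have h2 : Van (n + 1 + 1) (D2 (D1 (D1 (D3 G)) * dA G - D1 (D1 (D2 G)) * dB G +
        D1 (D1 (D1 G)) * dD G)) := by
      refine Van.D2 ((Van.sub ?_ ?_).add ?_)
      · exact (hG1.D3.D1.D1.mul h.A).mono (by omega)
      · exact (hG1.D2.D1.D1.mul h.B).mono (by omega)
      · exact (hG1.D1.D1.D1.mul h.D).mono (by omega)
    have h3 := h2 (n + 1) (by omega) a b
    simp only [cf_add (D2 (dD G) - D1 (dE G)), h3, add_zero] at h1
    simp only [cf_D3, cf_sub, cf_D2, cf_D1] at h1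
    exact h1
  have K3 : ∀ a b : ℕ, ((a : ℚ) + 1) * eA (a + 1) b =
      (b + 1) * eB a (b + 1) - ((n + 1 : ℕ) : ℚ) * eD a b := by
    intro a b
    have h1 := congrArg (fun F => cf F (n + 1) a b) (I3 G)
    simp only [cf_D3, cf_sub, cf_D2, cf_D1] at h1
    exact h1
  set g : ℕ → ℕ → ℚ := gg eA eB eD eE ((n + 1 : ℕ) : ℚ) with hg
  have hgsupp : ∀ a b, g a b ≠ 0 → 2 * a + b = 4 * (n + 1) := fun a b hab =>
    j9739_supp (n + 1) (fun a b h => supp_dA hsG _ _ _ h) (fun a b h => supp_dB hsG _ _ _ h)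
      (fun a b h => supp_dD hsG _ _ _ h) (fun a b h => supp_dE hsG _ _ _ h) a b hab
  set H : T := ser fun d a b => if d = n + 1 then g a b else 0 with hH
  have hHV : Van (n + 1) H := by
    intro d hd a b
    rw [hH, cf_ser, if_neg (by omega)]
  have hHc : ∀ a b, cf H (n + 1) a b = g a b := by
    intro a b
    rw [hH, cf_ser, if_pos rfl]
  have hsum : ser (fun d a b => if d = n + 1 then u d a b + g a b else u d a b) = G + H := by
    apply T_ext
    intro d a b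
    rw [cf_add, cf_ser, hG, hH, cf_ser, cf_ser]
    split_ifs <;> simp
  have hd1 : 1 ≤ n + 1 := by omega
  have hfin : ∀ (F L C : T), Van (n + 1) F → Van (n + 1) L → Van (n + 1 + 1) C →
      (∀ a b, cf L (n + 1) a b = -cf F (n + 1) a b) → Van (n + 1 + 1) (F + L + C) := by
    intro F L C hF hL hC hc d hd a b
    rw [cf_add, cf_add, hC d hd, add_zero]
    rcases Nat.lt_succ_iff_lt_or_eq.1 hd with h1 | rfl
    · rw [hF d h1, hL d h1, add_zero]
    · rw [hc a b]; ring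
  refine ⟨fun d a b => if d = n + 1 then u d a b + g a b else u d a b, ⟨?_, ?_, ?_, ?_, ?_, ?_⟩, ?_⟩
  · intro d a b hc
    split_ifs at hc with h1
    · subst h1
      by_cases h0 : g a b = 0
      · rw [h0, add_zero] at hc
        exact h.dim _ a b hc
      · exact ⟨by omega, hgsupp a b h0⟩
    · exact h.dim d a b hc
  · show (if 1 = n + 1 then u 1 2 0 + g 2 0 else u 1 2 0) = 1 / 2
    rw [if_neg (by omega)]
    exact h.line
  · rw [hsum]
    have hexp : dA (G + H) = dA G + (D2 (D2 (D2 H)) - 2 * D1 (D2 (D3 H))) +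
        ((D1 (D1 (D1 G)) * D2 (D2 (D2 H)) + D1 (D1 (D1 H)) * D2 (D2 (D2 G)) +
          D1 (D1 (D1 H)) * D2 (D2 (D2 H))) -
        (D1 (D1 (D2 G)) * D1 (D2 (D2 H)) + D1 (D1 (D2 H)) * D1 (D2 (D2 G)) +
          D1 (D1 (D2 H)) * D1 (D2 (D2 H)))) := by
      simp only [dA, map_add]
      ring
    rw [hexp]
    refine hfin _ _ _ h.A ?_ ?_ fun a b => ?_
    · exact hHV.D2.D2.D2.sub (hHV.D3.D2.D1.mul_left 2)
    · exact (Van.cross hd1 hG1.D1.D1.D1 hG1.D2.D2.D2 hHV.D1.D1.D1 hHV.D2.D2.D2).sub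
        (Van.cross hd1 hG1.D2.D1.D1 hG1.D2.D2.D1 hHV.D2.D1.D1 hHV.D2.D2.D1)
    · have := j9739_WA (eE := eE) K1 K2 K3 a b
      rw [← hg] at this
      simp only [cf_sub, cf_two_mul, cf_D1, cf_D2, cf_D3, hHc]
      push_cast at this ⊢
      change _ = -cf (dA G) (n + 1) a b at this
      linear_combination this
  · rw [hsum]
    have hexp : dB (G + H) = dB G + (D2 (D2 (D3 H)) - D1 (D3 (D3 H))) +
        ((D1 (D1 (D1 G)) * D2 (D2 (D3 H)) + D1 (D1 (D1 H)) * D2 (D2 (D3 G)) +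
          D1 (D1 (D1 H)) * D2 (D2 (D3 H))) -
        (D1 (D2 (D2 G)) * D1 (D1 (D3 H)) + D1 (D2 (D2 H)) * D1 (D1 (D3 G)) +
          D1 (D2 (D2 H)) * D1 (D1 (D3 H)))) := by
      simp only [dB, map_add]
      ring
    rw [hexp]
    refine hfin _ _ _ h.B ?_ ?_ fun a b => ?_
    · exact hHV.D3.D2.D2.sub hHV.D3.D3.D1
    · exact (Van.cross hd1 hG1.D1.D1.D1 hG1.D3.D2.D2 hHV.D1.D1.D1 hHV.D3.D2.D2).sub
        (Van.cross hd1 hG1.D2.D2.D1 hG1.D3.D1.D1 hHV.D2.D2.D1 hHV.D3.D1.D1)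
    · have := j9739_WB (eA := eA) (eE := eE) K1 K2 a b
      rw [← hg] at this
      simp only [cf_sub, cf_D1, cf_D2, cf_D3, hHc]
      push_cast at this ⊢
      change _ = -cf (dB G) (n + 1) a b at this
      linear_combination this
  · rw [hsum]
    have hexp : dD (G + H) = dD G + (D2 (D3 (D3 H))) +
        ((D1 (D1 (D2 G)) * D2 (D2 (D3 H)) + D1 (D1 (D2 H)) * D2 (D2 (D3 G)) +
          D1 (D1 (D2 H)) * D2 (D2 (D3 H))) -
        (D2 (D2 (D2 G)) * D1 (D1 (D3 H)) + D2 (D2 (D2 H)) * D1 (D1 (D3 G)) +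
          D2 (D2 (D2 H)) * D1 (D1 (D3 H)))) := by
      simp only [dD, map_add]
      ring
    rw [hexp]
    refine hfin _ _ _ h.D ?_ ?_ fun a b => ?_
    · exact hHV.D3.D3.D2
    · exact (Van.cross hd1 hG1.D2.D1.D1 hG1.D3.D2.D2 hHV.D2.D1.D1 hHV.D3.D2.D2).sub
        (Van.cross hd1 hG1.D2.D2.D2 hG1.D3.D1.D1 hHV.D2.D2.D2 hHV.D3.D1.D1)
    · have := j9739_WD (eA := eA) (eB := eB) (d := ((n + 1 : ℕ) : ℚ)) K1 a b
      rw [← hg] at this
      simp only [cf_D2, cf_D3, hHc]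
      push_cast at this ⊢
      change _ = -cf (dD G) (n + 1) a b at this
      linear_combination this
  · rw [hsum]
    have hexp : dE (G + H) = dE G + (D3 (D3 (D3 H))) +
        (((D1 (D1 (D2 G)) * D2 (D3 (D3 H)) + D1 (D1 (D2 H)) * D2 (D3 (D3 G)) +
          D1 (D1 (D2 H)) * D2 (D3 (D3 H))) +
        (D1 (D2 (D2 G)) * D1 (D3 (D3 H)) + D1 (D2 (D2 H)) * D1 (D3 (D3 G)) +
          D1 (D2 (D2 H)) * D1 (D3 (D3 H)))) -
        ((D1 (D2 (D3 G)) * D1 (D2 (D3 H)) + D1 (D2 (D3 H)) * D1 (D2 (D3 G)) +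
          D1 (D2 (D3 H)) * D1 (D2 (D3 H))) +
        (D1 (D1 (D3 G)) * D2 (D2 (D3 H)) + D1 (D1 (D3 H)) * D2 (D2 (D3 G)) +
          D1 (D1 (D3 H)) * D2 (D2 (D3 H))))) := by
      simp only [dE, map_add]
      ring
    rw [hexp]
    refine hfin _ _ _ h.E ?_ ?_ fun a b => ?_
    · exact hHV.D3.D3.D3
    · exact ((Van.cross hd1 hG1.D2.D1.D1 hG1.D3.D3.D2 hHV.D2.D1.D1 hHV.D3.D3.D2).add
        (Van.cross hd1 hG1.D2.D2.D1 hG1.D3.D3.D1 hHV.D2.D2.D1 hHV.D3.D3.D1)).sub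
        ((Van.cross hd1 hG1.D3.D2.D1 hG1.D3.D2.D1 hHV.D3.D2.D1 hHV.D3.D2.D1).add
        (Van.cross hd1 hG1.D3.D1.D1 hG1.D3.D2.D2 hHV.D3.D1.D1 hHV.D3.D2.D2))
    · have := j9739_WE (eA := eA) (eB := eB) (eD := eD) (eE := eE) (d := ((n + 1 : ℕ) : ℚ)) a b
      rw [← hg] at this
      simp only [cf_D3, hHc]
      push_cast at this ⊢
      change _ = -cf (dE G) (n + 1) a b at this
      linear_combination this
  · intro d hd a b
    show (if d = n + 1 then u d a b + g a b else u d a b) = u d a b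
    rw [if_neg (by omega)]

end Pool.Agent.Helper516.GW
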