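import Pool.Agent.Helper516.GW.Pos

open Finset
open scoped Nat

namespace Pool.Agent.Helper516.GW

variable {N : ℕ → ℕ → ℕ → ℚ}

theorem triple_single (f : ℕ × ℕ → ℕ × ℕ → ℕ × ℕ → ℚ) (hf : ∀ x y z, 0 ≤ f x y z)
    {n m k : ℕ} (x y z : ℕ × ℕ) (hx : x ∈ antidiagonal n) (hy : y ∈ antidiagonal m)
    (hz : z ∈ antidiagonal k) :
    f x y z ≤ ∑ x ∈ antidiagonal n, ∑ y ∈ antidiagonal m, ∑ z ∈ antidiagonal k, f x y z := by
  have e1 : f x y z ≤ ∑ z ∈ antidiagonal k, f x y z :=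
    Finset.single_le_sum (f := fun z => f x y z) (fun z _ => hf x y z) hz
  have e2 : ∑ z ∈ antidiagonal k, f x y z ≤ ∑ y ∈ antidiagonal m, ∑ z ∈ antidiagonal k, f x y z :=
    Finset.single_le_sum (f := fun y => ∑ z ∈ antidiagonal k, f x y z)
      (fun y _ => Finset.sum_nonneg fun z _ => hf x y z) hy
  have e3 : ∑ y ∈ antidiagonal m, ∑ z ∈ antidiagonal k, f x y z ≤
      ∑ x ∈ antidiagonal n, ∑ y ∈ antidiagonal m, ∑ z ∈ antidiagonal k, f x y z :=
    Finset.single_le_sum (f := fun x => ∑ y ∈ antidiagonal m, ∑ z ∈ antidiagonal k, f x y z)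
      (fun x _ => Finset.sum_nonneg fun y _ => Finset.sum_nonneg fun z _ => hf x y z) hx
  exact e1.trans (e2.trans e3)

theorem star_ge (h : IsCount N) {d1 a1 b1 d2 a2 b2 d a b : ℕ} (hd : d1 + d2 = d)
    (ha : a1 + a2 = a) (hb : b1 + b2 = b) :
    ((d1 : ℚ) ^ 3 * uu N d1 a1 b1) * (((b2 : ℚ) + 2) * (b2 + 1) * uu N d2 a2 (b2 + 2)) ≤
      (2 * (d : ℚ) - 1) * (b + 2) * (b + 1) * uu N d a (b + 2) := by
  have hs := star h d a b
  rw [hs]
  have hnn : ∀ x y z : ℕ × ℕ,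
      0 ≤ ((x.1 : ℚ) ^ 3 * uu N x.1 y.1 z.1) * ((z.2 + 2) * (z.2 + 1) * uu N x.2 y.2 (z.2 + 2)) := by
    intro x y z
    have i1 := uu_nonneg h x.1 y.1 z.1
    have i2 := uu_nonneg h x.2 y.2 (z.2 + 2)
    positivity
  have e3 := triple_single (fun x y z : ℕ × ℕ =>
      ((x.1 : ℚ) ^ 3 * uu N x.1 y.1 z.1) * ((z.2 + 2) * (z.2 + 1) * uu N x.2 y.2 (z.2 + 2))) hnn
    (d1, d2) (a1, a2) (b1, b2) (Finset.HasAntidiagonal.mem_antidiagonal.mpr hd)
      (Finset.HasAntidiagonal.mem_antidiagonal.mpr ha)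
      (Finset.HasAntidiagonal.mem_antidiagonal.mpr hb)
  have e4 : 0 ≤ (d : ℚ) * ((a : ℚ) + 1) * ((a : ℚ) + (b : ℚ)) * uu N d (a + 1) b := by
    have := uu_nonneg h d (a + 1) b
    positivity
  simp only at e3
  linarith

/-- chain inequality -/
theorem star_chain (h : IsCount N) (d a b : ℕ) :
    (d : ℚ) * (a + 1) * (a + b) * uu N d (a + 1) b ≤
      (2 * (d : ℚ) - 1) * (b + 2) * (b + 1) * uu N d a (b + 2) := by
  have hs := star h d a b
  rw [hs]
  have : 0 ≤ ∑ x ∈ antidiagonal d, ∑ y ∈ antidiagonal a, ∑ z ∈ antidiagonal b,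
        ((x.1 : ℚ) ^ 3 * uu N x.1 y.1 z.1) * ((z.2 + 2) * (z.2 + 1) * uu N x.2 y.2 (z.2 + 2)) := by
    refine Finset.sum_nonneg fun x _ => Finset.sum_nonneg fun y _ => Finset.sum_nonneg fun z _ => ?_
    have i1 := uu_nonneg h x.1 y.1 z.1
    have i2 := uu_nonneg h x.2 y.2 (z.2 + 2)
    positivity
  linarith

theorem chain (h : IsCount N) {d a b : ℕ} (hd : 2 * (a + 1) + b = 4 * d) :
    ((a : ℚ) + 1) * uu N d (a + 1) b ≤ 16 * d * uu N d a (b + 2) := by
  have h1 := star_chain h d a b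
  have hd1 : 1 ≤ d := by omega
  have hd1' : (1 : ℚ) ≤ d := by exact_mod_cast hd1
  have i1 := uu_nonneg h d (a + 1) b
  have i2 := uu_nonneg h d a (b + 2)
  have h2 : (2 * (d : ℚ) - 1) ≤ a + b := by
    have : 2 * d ≤ a + b + 1 := by omega
    have h' : (2 : ℚ) * d ≤ a + b + 1 := by exact_mod_cast this
    linarith
  have h3 : ((b : ℚ) + 2) ≤ 4 * d := by
    have : b + 2 ≤ 4 * d := by omega
    exact_mod_cast this
  have h4 : ((b : ℚ) + 1) ≤ 4 * d := by linarith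
  have h5 : (0 : ℚ) ≤ b := by positivity
  have h6 : (0 : ℚ) ≤ a := by positivity
  have h7 : (d : ℚ) * (a + 1) * (2 * d - 1) * uu N d (a + 1) b ≤
      (d : ℚ) * (a + 1) * (a + b) * uu N d (a + 1) b := by
    apply mul_le_mul_of_nonneg_right _ i1
    apply mul_le_mul_of_nonneg_left h2
    positivity
  have h8 : ((b : ℚ) + 2) * (b + 1) ≤ 4 * d * (4 * d) := by
    apply mul_le_mul h3 h4 (by positivity) (by positivity)
  have h9 : 0 < 2 * (d : ℚ) - 1 := by linarith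
  have h10 : (2 * (d : ℚ) - 1) * (b + 2) * (b + 1) * uu N d a (b + 2) ≤
      (2 * (d : ℚ) - 1) * (4 * d * (4 * d)) * uu N d a (b + 2) := by
    apply mul_le_mul_of_nonneg_right _ i2
    rw [mul_assoc]
    exact mul_le_mul_of_nonneg_left h8 h9.le
  have h11 : ((2 * (d : ℚ) - 1) * d) * (((a : ℚ) + 1) * uu N d (a + 1) b) ≤
      ((2 * (d : ℚ) - 1) * d) * (16 * d * uu N d a (b + 2)) := by linarith
  have h12 : 0 < (2 * (d : ℚ) - 1) * d := by positivity
  exact le_of_mul_le_mul_left h11 h12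

theorem chain_iter (h : IsCount N) (d : ℕ) : ∀ a b : ℕ, 2 * a + b = 4 * d →
    (a ! : ℚ) * uu N d a b ≤ (16 * d) ^ a * uu N d 0 (4 * d) := by
  intro a
  induction a with
  | zero =>
    intro b hb
    have : b = 4 * d := by omega
    subst this
    simp
  | succ a ih =>
    intro b hb
    have h1 := chain h hb
    have h2 := ih (b + 2) (by omega)
    rw [Nat.factorial_succ]
    push_cast
    have h3 : (0 : ℚ) ≤ (a ! : ℚ) := by positivity
    have h4 := mul_le_mul_of_nonneg_left h1 h3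
    have h5 : (0 : ℚ) ≤ 16 * d := by positivity
    have h6 := mul_le_mul_of_nonneg_left h2 h5
    rw [pow_succ]
    linarith

/-- normalised counts on a ray -/
noncomputable def ray (N : ℕ → ℕ → ℕ → ℚ) (α β d : ℕ) : ℚ :=
  uu N (α * d) (2 * (α * d) - β * d) (2 * (β * d))

theorem ray_pos (h : IsCount N) {α β : ℕ} (hα : 0 < α) (hβ : 0 < β) (hβα : β ≤ 2 * α) {d : ℕ}
    (hd : 1 ≤ d) : 0 < ray N α β d := by
  have h1 : 1 ≤ α * d := Nat.mul_pos hα hd
  have h2 : 1 ≤ β * d := Nat.mul_pos hβ hd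
  have h3 : β * d ≤ 2 * (α * d) := by
    calc β * d ≤ (2 * α) * d := Nat.mul_le_mul_right d hβα
      _ = 2 * (α * d) := by ring
  exact uu_pos h h1 _ _ (by omega) (by omega)

theorem sup_arith (α β d e U1 U2 U3 : ℚ) (a1 : 1 ≤ α) (b1 : 1 ≤ β) (ee1 : 1 ≤ e) (de : e ≤ d)
    (be : 1 ≤ β * e) (hU1 : 0 < U1) (hU2 : 0 < U2) (hU3 : 0 < U3)
    (key : ((α * d) ^ 3 * U1) * ((2 * (β * e) - 2 + 2) * (2 * (β * e) - 2 + 1) * U2) ≤
      (2 * (α * (d + e)) - 1) * (2 * (β * (d + e)) - 2 + 2) *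
      (2 * (β * (d + e)) - 2 + 1) * U3) : (1 / 32) * U1 * U2 ≤ U3 := by
  have d1 : 1 ≤ d := ee1.trans de
  have k1 : 2 * α * d ^ 3 * β ^ 2 * (U1 * U2) ≤
      ((α * d) ^ 3 * U1) * ((2 * (β * e) - 2 + 2) * (2 * (β * e) - 2 + 1) * U2) := by
    have q1 : 2 * β ^ 2 ≤ (2 * (β * e) - 2 + 2) * (2 * (β * e) - 2 + 1) := by
      have : β ^ 2 ≤ (β * e) ^ 2 := by
        apply pow_le_pow_left₀ (by linarith)
        nlinarith
      nlinarith
    have q2 : α * d ^ 3 ≤ (α * d) ^ 3 := by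
      have : α ≤ α ^ 3 := by
        calc α = α ^ 1 := by ring
          _ ≤ α ^ 3 := pow_le_pow_right₀ a1 (by norm_num)
      rw [mul_pow]
      exact mul_le_mul_of_nonneg_right this (by positivity)
    have q3 : (α * d ^ 3) * (2 * β ^ 2) ≤
      ((α * d) ^ 3) * ((2 * (β * e) - 2 + 2) * (2 * (β * e) - 2 + 1)) :=
      mul_le_mul q2 q1 (by positivity) (by positivity)
    have q4 := mul_le_mul_of_nonneg_right q3 (mul_pos hU1 hU2).le
    linarith
  have k2 : (2 * (α * (d + e)) - 1) * (2 * (β * (d + e)) - 2 + 2) *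
      (2 * (β * (d + e)) - 2 + 1) * U3 ≤ 64 * α * d ^ 3 * β ^ 2 * U3 := by
    apply mul_le_mul_of_nonneg_right _ hU3.le
    have hαd : α * e ≤ α * d := mul_le_mul_of_nonneg_left de (by linarith)
    have hβd : β * e ≤ β * d := mul_le_mul_of_nonneg_left de (by linarith)
    have hα0 : 1 ≤ α * d := by nlinarith
    have hβ0 : 1 ≤ β * d := by linarith
    have q1 : (2 * (α * (d + e)) - 1) ≤ 4 * α * d := by linarith
    have q2 : (2 * (β * (d + e)) - 2 + 2) ≤ 4 * β * d := by linarith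
    have q3 : (2 * (β * (d + e)) - 2 + 1) ≤ 4 * β * d := by linarith
    have p2 : 0 ≤ (2 * (β * (d + e)) - 2 + 2) := by linarith
    have p3 : 0 ≤ (2 * (β * (d + e)) - 2 + 1) := by linarith
    calc (2 * (α * (d + e)) - 1) * (2 * (β * (d + e)) - 2 + 2) *
      (2 * (β * (d + e)) - 2 + 1) ≤ (4 * α * d) * (4 * β * d) * (4 * β * d) := by
          apply mul_le_mul (mul_le_mul q1 q2 p2 (by linarith)) q3 p3 (by positivity)
      _ = 64 * α * d ^ 3 * β ^ 2 := by ring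
  have k3 : (64 * α * d ^ 3 * β ^ 2) * ((1 / 32) * U1 * U2) ≤
      (64 * α * d ^ 3 * β ^ 2) * U3 := by linarith
  exact le_of_mul_le_mul_left k3 (by positivity)

theorem ray_sup_aux (h : IsCount N) {α β : ℕ} (hα : 0 < α) (hβ : 0 < β) (hβα : β ≤ 2 * α) {d e : ℕ}
    (he : 1 ≤ e) (hed : e ≤ d) :
    (1 / 32) * ray N α β d * ray N α β e ≤ ray N α β (d + e) := by
  have hd : 1 ≤ d := by omega
  have h2 : 1 ≤ β * e := Nat.mul_pos hβ he
  have h3 : β * d ≤ 2 * (α * d) := by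
    calc β * d ≤ (2 * α) * d := Nat.mul_le_mul_right d hβα
      _ = 2 * (α * d) := by ring
  have h4 : β * e ≤ 2 * (α * e) := by
    calc β * e ≤ (2 * α) * e := Nat.mul_le_mul_right e hβα
      _ = 2 * (α * e) := by ring
  have e3 : α * d + α * e = α * (d + e) := by ring
  have hA : α * (d + e) = α * d + α * e := Nat.mul_add _ _ _
  have hB : β * (d + e) = β * d + β * e := Nat.mul_add _ _ _
  have e4 : 2 * (α * d) - β * d + (2 * (α * e) - β * e) = 2 * (α * (d + e)) - β * (d + e) := by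
    omega
  have e2 : 2 * (β * d) + (2 * (β * e) - 2) = 2 * (β * (d + e)) - 2 := by
    omega
  have key := star_ge h e3 e4 e2
  have e1 : 2 * (β * e) - 2 + 2 = 2 * (β * e) := by omega
  have e2' : 2 * (β * (d + e)) - 2 + 2 = 2 * (β * (d + e)) := by
    omega
  have e5 : (((2 * (β * e) - 2 : ℕ)) : ℚ) = 2 * (β * e) - 2 := by
    rw [Nat.cast_sub (by omega)]; push_cast; ring
  have e6 : (((2 * (β * (d + e)) - 2 : ℕ)) : ℚ) = 2 * (β * (d + e)) - 2 := by
    rw [← e2, Nat.cast_add, e5]; push_cast; ring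
  rw [e1, e2', e5, e6] at key
  have hU1 : 0 < ray N α β d := ray_pos h hα hβ hβα hd
  have hU2 : 0 < ray N α β e := ray_pos h hα hβ hβα he
  have hU3 : 0 < ray N α β (d + e) := ray_pos h hα hβ hβα (by omega)
  refine sup_arith α β d e _ _ _ (by exact_mod_cast hα) (by exact_mod_cast hβ)
    (by exact_mod_cast he) (by exact_mod_cast hed) (by exact_mod_cast h2) hU1 hU2 hU3 ?_
  unfold ray
  rw [Nat.cast_mul, Nat.cast_mul, Nat.cast_add] at key
  exact key

theorem ray_sup (h : IsCount N) {α β : ℕ} (hα : 0 < α) (hβ : 0 < β) (hβα : β ≤ 2 * α) {d e : ℕ}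
    (hd : 1 ≤ d) (he : 1 ≤ e) :
    (1 / 32) * ray N α β d * ray N α β e ≤ ray N α β (d + e) := by
  rcases le_total e d with hed | hed
  · exact ray_sup_aux h hα hβ hβα he hed
  · have := ray_sup_aux h hα hβ hβα hd hed
    rw [add_comm e d] at this
    linarith

end Pool.Agent.Helper516.GW
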