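import Pool.Agent.Helper516.GW.Num

open Finset
open scoped Nat

namespace Pool.Agent.Helper516.GW

theorem uu_unique {N N' : ℕ → ℕ → ℕ → ℚ} (h : IsCount N) (h' : IsCount N') :
    ∀ d a b, uu N d a b = uu N' d a b := by
  intro d
  induction d using Nat.strong_induction_on with
  | _ d ihd =>
    intro a b
    induction b using Nat.strong_induction_on generalizing a with
    | _ b ihb =>
      by_cases hd : 1 ≤ d ∧ 2 * a + b = 4 * d
      · rcases Nat.lt_or_ge b 2 with hb | hb
        · have hb0 : b = 0 := by omega
          subst hb0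
          have ha : a = 2 * d := by omega
          subst ha
          rcases Nat.lt_or_ge d 2 with hd2 | hd2
          · have hd1 : d = 1 := by omega
            subst hd1
            show uu N 1 2 0 = uu N' 1 2 0
            rw [uu_one h, uu_one h']
          · have r := rel2 h d
            have r' := rel2 h' d
            have hs : ∑ x ∈ antidiagonal d, 2 * (x.2 : ℚ) ^ 2 * ((x.1 : ℚ) - x.2) * yy N x.1 * ww N x.2 =
                ∑ x ∈ antidiagonal d, 2 * (x.2 : ℚ) ^ 2 * ((x.1 : ℚ) - x.2) * yy N' x.1 * ww N' x.2 := by
              refine Finset.sum_congr rfl fun x hx => ?_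
              rw [Finset.HasAntidiagonal.mem_antidiagonal] at hx
              rcases Nat.eq_zero_or_pos x.1 with h0 | h0
              · rw [h0]; simp [yy, uu_zero h, uu_zero h']
              rcases Nat.eq_zero_or_pos x.2 with h0' | h0'
              · rw [h0']; simp
              have i1 : yy N x.1 = yy N' x.1 := by
                unfold yy; rw [ihd x.1 (by omega)]
              have i2 : ww N x.2 = ww N' x.2 := ihd x.2 (by omega) _ _
              rw [i1, i2]
            rw [hs, ← r'] at r
            have hdq : (2 : ℚ) ≤ d := by exact_mod_cast hd2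
            have hne : (2 * (d : ℚ)) * (2 * d - 1) * (2 * d - 2) ≠ 0 := by
              have p1 : 0 < 2 * (d : ℚ) := by linarith
              have p2 : 0 < 2 * (d : ℚ) - 1 := by linarith
              have p3 : 0 < 2 * (d : ℚ) - 2 := by linarith
              positivity
            exact mul_left_cancel₀ hne r
        · obtain ⟨b, rfl⟩ : ∃ b', b = b' + 2 := ⟨b - 2, by omega⟩
          have r := star h d a b
          have r' := star h' d a b
          have hs : ∑ x ∈ antidiagonal d, ∑ y ∈ antidiagonal a, ∑ z ∈ antidiagonal b,
        ((x.1 : ℚ) ^ 3 * uu N x.1 y.1 z.1) * ((z.2 + 2) * (z.2 + 1) * uu N x.2 y.2 (z.2 + 2)) =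
              ∑ x ∈ antidiagonal d, ∑ y ∈ antidiagonal a, ∑ z ∈ antidiagonal b,
        ((x.1 : ℚ) ^ 3 * uu N' x.1 y.1 z.1) * ((z.2 + 2) * (z.2 + 1) * uu N' x.2 y.2 (z.2 + 2)) := by
            refine Finset.sum_congr rfl fun x hx => Finset.sum_congr rfl fun y _ =>
              Finset.sum_congr rfl fun z _ => ?_
            rw [Finset.HasAntidiagonal.mem_antidiagonal] at hx
            rcases Nat.eq_zero_or_pos x.1 with h0 | h0
            · rw [h0]; simp
            rcases Nat.eq_zero_or_pos x.2 with h0' | h0'
            · rw [h0', uu_zero h, uu_zero h']; simp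
            rw [ihd x.1 (by omega), ihd x.2 (by omega)]
          rw [hs, ihb b (by omega) (a + 1), ← r'] at r
          have hd1 : (1 : ℚ) ≤ d := by exact_mod_cast hd.1
          have hne : (2 * (d : ℚ) - 1) * (b + 2) * (b + 1) ≠ 0 := by
            have : 0 < 2 * (d : ℚ) - 1 := by linarith
            positivity
          exact mul_left_cancel₀ hne r
      · rw [uu_eq_zero h hd, uu_eq_zero h' hd]

theorem unique_count {N N' : ℕ → ℕ → ℕ → ℚ} (h : IsCount N) (h' : IsCount N') : N = N' := by
  funext d a b
  have := uu_unique h h' d a b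
  unfold uu at this
  have pa : (a ! : ℚ) ≠ 0 := by positivity
  have pb : (b ! : ℚ) ≠ 0 := by positivity
  field_simp at this
  exact this

end Pool.Agent.Helper516.GW
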