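import Mathlib

open Finset

namespace Pool.Agent.Helper516.GW

theorem upper_seq_inv_sq (n : ℕ) : ∑ i ∈ range (n + 1), 1 / (i : ℝ) ^ 2 ≤ 2 := by
  have key : ∀ n : ℕ, 1 ≤ n → ∑ i ∈ range (n + 1), 1 / (i : ℝ) ^ 2 ≤ 2 - 1 / (n : ℝ) := by
    intro n hn
    induction n, hn using Nat.le_induction with
    | base => norm_num [Finset.sum_range_succ]
    | succ k hk ih =>
      rw [Finset.sum_range_succ]
      have hk0 : (1 : ℝ) ≤ k := by exact_mod_cast hk
      have h1 : 1 / ((k + 1 : ℕ) : ℝ) ^ 2 ≤ 1 / (k : ℝ) - 1 / ((k + 1 : ℕ) : ℝ) := by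
        push_cast
        rw [div_sub_div _ _ (by positivity) (by positivity), div_le_div_iff₀ (by positivity)
          (by positivity)]
        nlinarith
      linarith
  rcases Nat.eq_zero_or_pos n with h | h
  · subst h; norm_num
  · have h1 := key n h
    have h2 : (0 : ℝ) ≤ 1 / (n : ℝ) := by positivity
    linarith

theorem upper_seq_sum (d : ℕ) (hd : 1 ≤ d) :
    ∑ x ∈ antidiagonal d, 1 / ((x.1 : ℝ) ^ 2 * (x.2 : ℝ) ^ 2) ≤ 8 / (d : ℝ) ^ 2 := by
  have hd0 : (0 : ℝ) < d := by exact_mod_cast hd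
  have h1 : ∀ x ∈ antidiagonal d, 1 / ((x.1 : ℝ) ^ 2 * (x.2 : ℝ) ^ 2) ≤
      2 / (d : ℝ) ^ 2 * (1 / (x.1 : ℝ) ^ 2) + 2 / (d : ℝ) ^ 2 * (1 / (x.2 : ℝ) ^ 2) := by
    rintro ⟨i, j⟩ hx
    rw [Finset.HasAntidiagonal.mem_antidiagonal] at hx
    simp only at hx ⊢
    rcases Nat.eq_zero_or_pos i with hi | hi
    · subst hi
      simp only [Nat.cast_zero, ne_eq, OfNat.ofNat_ne_zero, not_false_eq_true, zero_pow, zero_mul,
        div_zero, mul_zero, zero_add]
      positivity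
    rcases Nat.eq_zero_or_pos j with hj | hj
    · subst hj
      simp only [Nat.cast_zero, ne_eq, OfNat.ofNat_ne_zero, not_false_eq_true, zero_pow, mul_zero,
        div_zero, add_zero]
      positivity
    have hi0 : (0 : ℝ) < i := by exact_mod_cast hi
    have hj0 : (0 : ℝ) < j := by exact_mod_cast hj
    have hdd : (d : ℝ) = i + j := by exact_mod_cast hx.symm
    rw [hdd]
    rw [← sub_nonneg]
    have : 2 / ((i : ℝ) + j) ^ 2 * (1 / (i : ℝ) ^ 2) + 2 / ((i : ℝ) + j) ^ 2 * (1 / (j : ℝ) ^ 2) -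
        1 / ((i : ℝ) ^ 2 * (j : ℝ) ^ 2) =
        ((i : ℝ) - j) ^ 2 / (((i : ℝ) + j) ^ 2 * (i : ℝ) ^ 2 * (j : ℝ) ^ 2) := by
      field_simp
      ring
    rw [this]
    positivity
  refine (Finset.sum_le_sum h1).trans ?_
  rw [Finset.sum_add_distrib, ← Finset.mul_sum, ← Finset.mul_sum]
  have e1 : ∑ x ∈ antidiagonal d, 1 / (x.1 : ℝ) ^ 2 = ∑ i ∈ range (d + 1), 1 / (i : ℝ) ^ 2 :=
    Finset.Nat.sum_antidiagonal_eq_sum_range_succ_mk (fun x : ℕ × ℕ => 1 / (x.1 : ℝ) ^ 2) d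
  have e2 : ∑ x ∈ antidiagonal d, 1 / (x.2 : ℝ) ^ 2 = ∑ x ∈ antidiagonal d, 1 / (x.1 : ℝ) ^ 2 := by
    have := Finset.Nat.sum_antidiagonal_swap (n := d) (f := fun x : ℕ × ℕ => 1 / (x.1 : ℝ) ^ 2)
    simpa using this
  rw [e2, e1]
  have h3 := upper_seq_inv_sq d
  have h4 : (0 : ℝ) < 2 / (d : ℝ) ^ 2 := by positivity
  have h5 : 8 / (d : ℝ) ^ 2 = 2 / (d : ℝ) ^ 2 * 2 + 2 / (d : ℝ) ^ 2 * 2 := by ring
  rw [h5]
  have h6 := mul_le_mul_of_nonneg_left h3 h4.le
  linarith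

theorem upper_seq (n m : ℕ → ℝ) (hn0 : n 0 = 0) (hm0 : m 0 = 0) (hn : ∀ d, 0 ≤ n d)
    (hm : ∀ d, 0 ≤ m d) (h1 : n 1 ≤ 1) (h2 : m 1 ≤ 1)
    (hmr : ∀ d : ℕ, 2 ≤ d → (d : ℝ) ^ 2 * m d ≤
      7 * ∑ x ∈ antidiagonal d, (x.1 : ℝ) ^ 3 * (x.2 : ℝ) ^ 2 * n x.1 * m x.2)
    (hnr : ∀ d : ℕ, 2 ≤ d → (d : ℝ) ^ 3 * n d ≤ (d : ℝ) ^ 2 * m d +
      ∑ x ∈ antidiagonal d, (x.1 : ℝ) ^ 3 * (x.2 : ℝ) ^ 2 * n x.1 * n x.2) :
    ∀ d, n d ≤ (200 : ℝ) ^ d := by
  have key : ∀ d : ℕ, 1 ≤ d → m d * (d : ℝ) ^ 4 ≤ (1 / 200) * (200 : ℝ) ^ d ∧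
      n d * (d : ℝ) ^ 5 ≤ (1 / 100) * (200 : ℝ) ^ d := by
    intro d
    induction d using Nat.strong_induction_on with
    | _ d ih =>
      intro hd
      rcases Nat.lt_or_ge d 2 with hd2 | hd2
      · have : d = 1 := by omega
        subst this
        norm_num
        constructor <;> linarith
      · have hd0 : (0 : ℝ) < d := by exact_mod_cast hd
        have hS := upper_seq_sum d hd
        have hb1 : ∀ x ∈ antidiagonal d, (x.1 : ℝ) ^ 3 * (x.2 : ℝ) ^ 2 * n x.1 * m x.2 ≤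
            (1 / 20000) * (200 : ℝ) ^ d * (1 / ((x.1 : ℝ) ^ 2 * (x.2 : ℝ) ^ 2)) := by
          rintro ⟨i, j⟩ hx
          rw [Finset.HasAntidiagonal.mem_antidiagonal] at hx
          simp only at hx ⊢
          rcases Nat.eq_zero_or_pos i with hi | hi
          · subst hi; simp
          rcases Nat.eq_zero_or_pos j with hj | hj
          · subst hj; simp
          have hi0 : (0 : ℝ) < i := by exact_mod_cast hi
          have hj0 : (0 : ℝ) < j := by exact_mod_cast hj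
          have a1 := (ih i (by omega) hi).2
          have a2 := (ih j (by omega) hj).1
          have a3 := hn i
          have a4 := hm j
          have a5 := mul_le_mul a1 a2 (by positivity) (by positivity)
          have a6 : (1 / 100 * (200 : ℝ) ^ i) * (1 / 200 * (200 : ℝ) ^ j) =
              1 / 20000 * (200 : ℝ) ^ d := by rw [← hx, pow_add]; ring
          rw [a6] at a5
          rw [mul_one_div, le_div_iff₀ (by positivity)]
          calc (i : ℝ) ^ 3 * (j : ℝ) ^ 2 * n i * m j * ((i : ℝ) ^ 2 * (j : ℝ) ^ 2)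
              = n i * (i : ℝ) ^ 5 * (m j * (j : ℝ) ^ 4) := by ring
            _ ≤ _ := a5
        have hb2 : ∀ x ∈ antidiagonal d, (x.1 : ℝ) ^ 3 * (x.2 : ℝ) ^ 2 * n x.1 * n x.2 ≤
            (1 / 10000) * (200 : ℝ) ^ d * (1 / ((x.1 : ℝ) ^ 2 * (x.2 : ℝ) ^ 2)) := by
          rintro ⟨i, j⟩ hx
          rw [Finset.HasAntidiagonal.mem_antidiagonal] at hx
          simp only at hx ⊢
          rcases Nat.eq_zero_or_pos i with hi | hi
          · subst hi; simp
          rcases Nat.eq_zero_or_pos j with hj | hj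
          · subst hj; simp
          have hi0 : (0 : ℝ) < i := by exact_mod_cast hi
          have hj0 : (0 : ℝ) < j := by exact_mod_cast hj
          have hj1 : (1 : ℝ) ≤ j := by exact_mod_cast hj
          have a1 := (ih i (by omega) hi).2
          have a2 := (ih j (by omega) hj).2
          have a3 := hn i
          have a4 := hn j
          have a2' : n j * (j : ℝ) ^ 4 ≤ 1 / 100 * (200 : ℝ) ^ j := by
            have : n j * (j : ℝ) ^ 4 ≤ n j * (j : ℝ) ^ 5 := by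
              apply mul_le_mul_of_nonneg_left _ a4
              exact pow_le_pow_right₀ hj1 (by norm_num)
            linarith
          have a5 := mul_le_mul a1 a2' (by positivity) (by positivity)
          have a6 : (1 / 100 * (200 : ℝ) ^ i) * (1 / 100 * (200 : ℝ) ^ j) =
              1 / 10000 * (200 : ℝ) ^ d := by rw [← hx, pow_add]; ring
          rw [a6] at a5
          rw [mul_one_div, le_div_iff₀ (by positivity)]
          calc (i : ℝ) ^ 3 * (j : ℝ) ^ 2 * n i * n j * ((i : ℝ) ^ 2 * (j : ℝ) ^ 2)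
              = n i * (i : ℝ) ^ 5 * (n j * (j : ℝ) ^ 4) := by ring
            _ ≤ _ := a5
        have c1 := Finset.sum_le_sum hb1
        have c2 := Finset.sum_le_sum hb2
        rw [← Finset.mul_sum] at c1 c2
        have p1 : (0 : ℝ) < (200 : ℝ) ^ d := by positivity
        have c1' := c1.trans (mul_le_mul_of_nonneg_left hS (by positivity))
        have c2' := c2.trans (mul_le_mul_of_nonneg_left hS (by positivity))
        have m1 := hmr d hd2
        have n1 := hnr d hd2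
        have m2 : (d : ℝ) ^ 2 * m d ≤ 7 * (1 / 20000 * (200 : ℝ) ^ d * (8 / (d : ℝ) ^ 2)) := by
          linarith
        have n2 : (d : ℝ) ^ 3 * n d ≤ 7 * (1 / 20000 * (200 : ℝ) ^ d * (8 / (d : ℝ) ^ 2)) +
            1 / 10000 * (200 : ℝ) ^ d * (8 / (d : ℝ) ^ 2) := by linarith
        have q : (0 : ℝ) < (d : ℝ) ^ 2 := by positivity
        constructor
        · have e1 := mul_le_mul_of_nonneg_right m2 q.le
          have e2 : 7 * (1 / 20000 * (200 : ℝ) ^ d * (8 / (d : ℝ) ^ 2)) * (d : ℝ) ^ 2 =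
              56 / 20000 * (200 : ℝ) ^ d := by field_simp; ring
          rw [e2] at e1
          have e3 : (d : ℝ) ^ 2 * m d * (d : ℝ) ^ 2 = m d * (d : ℝ) ^ 4 := by ring
          rw [e3] at e1
          linarith
        · have e1 := mul_le_mul_of_nonneg_right n2 q.le
          have e2 : (7 * (1 / 20000 * (200 : ℝ) ^ d * (8 / (d : ℝ) ^ 2)) +
              1 / 10000 * (200 : ℝ) ^ d * (8 / (d : ℝ) ^ 2)) * (d : ℝ) ^ 2 =
              72 / 20000 * (200 : ℝ) ^ d := by field_simp; ring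
          rw [e2] at e1
          have e3 : (d : ℝ) ^ 3 * n d * (d : ℝ) ^ 2 = n d * (d : ℝ) ^ 5 := by ring
          rw [e3] at e1
          linarith
  intro d
  rcases Nat.eq_zero_or_pos d with hd | hd
  · subst hd; rw [hn0]; simp
  · have h3 := (key d hd).2
    have hd1 : (1 : ℝ) ≤ d := by exact_mod_cast hd
    have h4 : n d ≤ n d * (d : ℝ) ^ 5 := by
      have := one_le_pow₀ hd1 (n := 5)
      nlinarith [hn d]
    have p1 : (0 : ℝ) < (200 : ℝ) ^ d := by positivity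
    linarith

end Pool.Agent.Helper516.GW
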