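import Pool.Agent.Helper516.GW.Sup
import Pool.Agent.Helper516.GW.Upp

open Finset
open scoped Nat

namespace Pool.Agent.Helper516.GW

variable {N : ℕ → ℕ → ℕ → ℚ}

noncomputable def nn (N : ℕ → ℕ → ℕ → ℚ) (d : ℕ) : ℚ := uu N d 0 (4 * d)
noncomputable def mm (N : ℕ → ℕ → ℕ → ℚ) (d : ℕ) : ℚ := uu N d 1 (4 * d - 2)

theorem up1 (h : IsCount N) {d : ℕ} (hd : 2 ≤ d) :
    (4 * (d : ℚ) - 4) * (2 * uu N d 2 (4 * d - 4)) ≤ ∑ x ∈ antidiagonal d,
      (4 * (x.1 : ℚ)) * (4 * x.1 - 1) * (4 * x.1 - 2) * nn N x.1 * ((x.2 : ℚ) ^ 2 * mm N x.2) := by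
  have h1 := congrArg (fun F => cf F d 0 (4 * d - 5)) h.eqs.D
  simp only [cf_add, cf_D1, cf_D2, cf_D3, cf_mul, cf_G, Finset.Nat.antidiagonal_zero,
      Finset.sum_singleton] at h1
  have e1 : 4 * d - 5 + 1 = 4 * d - 4 := by omega
  have e2 : (((4 * d - 5 : ℕ)) : ℚ) = 4 * d - 5 := by
    rw [Nat.cast_sub (by omega)]; push_cast; ring
  rw [e1, e2] at h1
  have hnn : 0 ≤ ∑ x ∈ antidiagonal d, ∑ z ∈ antidiagonal (4 * d - 5),
      (x.1 : ℚ) * (↑x.1 * ((↑z.1 + 1) * uu N x.1 0 (z.1 + 1))) *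
        ((↑z.2 + 1) * ((↑(z.2 + 1) + 1) * ((((0 : ℕ) : ℚ) + 1) * uu N x.2 (0 + 1) (z.2 + 1 + 1)))) := by
    refine Finset.sum_nonneg fun x _ => Finset.sum_nonneg fun z _ => ?_
    have i1 := uu_nonneg h x.1 0 (z.1 + 1)
    have i2 := uu_nonneg h x.2 (0 + 1) (z.2 + 1 + 1)
    positivity
  have hS : ∑ x ∈ antidiagonal d, ∑ z ∈ antidiagonal (4 * d - 5),
      ((z.1 : ℚ) + 1) * ((↑(z.1 + 1) + 1) * ((↑(z.1 + 1 + 1) + 1) * uu N x.1 0 (z.1 + 1 + 1 + 1))) *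
        (↑x.2 * (↑x.2 * ((((0 : ℕ) : ℚ) + 1) * uu N x.2 (0 + 1) z.2))) =
      ∑ x ∈ antidiagonal d,
      (4 * (x.1 : ℚ)) * (4 * x.1 - 1) * (4 * x.1 - 2) * nn N x.1 * ((x.2 : ℚ) ^ 2 * mm N x.2) := by
    refine Finset.sum_congr rfl fun x hx => ?_
    rw [Finset.HasAntidiagonal.mem_antidiagonal] at hx
    rcases Nat.eq_zero_or_pos x.1 with h0 | h0
    · rw [h0]; simp [uu_zero h]
    rcases Nat.eq_zero_or_pos x.2 with h0' | h0'
    · rw [h0']; simp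
    rw [anti_single (p := 4 * x.1 - 3) (q := 4 * x.2 - 2) (by omega)]
    · have e3 : 4 * x.1 - 3 + 1 + 1 + 1 = 4 * x.1 := by omega
      have e4 : (((4 * x.1 - 3 : ℕ)) : ℚ) = 4 * x.1 - 3 := by
        rw [Nat.cast_sub (by omega)]; push_cast; ring
      simp only [e3, nn, mm]
      push_cast
      rw [e4]
      ring
    · intro z hz hne
      rw [Finset.HasAntidiagonal.mem_antidiagonal] at hz
      have hz1 : z.1 ≠ 4 * x.1 - 3 := by
        intro hz1; apply hne; ext <;> simp only <;> omega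
      rw [uu_eq_zero h (a := 0) (b := z.1 + 1 + 1 + 1) (by omega)]
      simp
  rw [hS] at h1
  push_cast at h1 hnn ⊢
  norm_num at h1 hnn ⊢
  linarith

theorem up2 (h : IsCount N) {d : ℕ} (hd : 2 ≤ d) :
    (4 * (d : ℚ) - 3) * (4 * d - 2) * mm N d ≤ d * (2 * uu N d 2 (4 * d - 4)) +
      ∑ x ∈ antidiagonal d,
      (x.1 : ℚ) * (4 * x.1) * (4 * x.1 - 1) * nn N x.1 * ((x.2 : ℚ) ^ 2 * mm N x.2) := by
  have h1 := congrArg (fun F => cf F d 0 (4 * d - 4)) h.eqs.B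
  simp only [cf_add, cf_D1, cf_D2, cf_D3, cf_mul, cf_G, Finset.Nat.antidiagonal_zero,
      Finset.sum_singleton] at h1
  have e1 : 4 * d - 4 + 1 + 1 = 4 * d - 2 := by omega
  have e2 : (((4 * d - 4 : ℕ)) : ℚ) = 4 * d - 4 := by
    rw [Nat.cast_sub (by omega)]; push_cast; ring
  have e2' : (((4 * d - 4 + 1 : ℕ)) : ℚ) = 4 * d - 3 := by
    rw [Nat.cast_add, e2]; push_cast; ring
  rw [e1, e2, e2'] at h1
  have hnn : 0 ≤ ∑ x ∈ antidiagonal d, ∑ z ∈ antidiagonal (4 * d - 4),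
      (x.1 : ℚ) * (↑x.1 * (↑x.1 * uu N x.1 0 z.1)) *
        ((↑z.2 + 1) * ((↑(z.2 + 1) + 1) * ((((0 : ℕ) : ℚ) + 1) * uu N x.2 (0 + 1) (z.2 + 1 + 1)))) := by
    refine Finset.sum_nonneg fun x _ => Finset.sum_nonneg fun z _ => ?_
    have i1 := uu_nonneg h x.1 0 z.1
    have i2 := uu_nonneg h x.2 (0 + 1) (z.2 + 1 + 1)
    positivity
  have hS : ∑ x ∈ antidiagonal d, ∑ z ∈ antidiagonal (4 * d - 4),
      (x.1 : ℚ) * ((↑z.1 + 1) * ((↑(z.1 + 1) + 1) * uu N x.1 0 (z.1 + 1 + 1))) *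
        (↑x.2 * (↑x.2 * ((((0 : ℕ) : ℚ) + 1) * uu N x.2 (0 + 1) z.2))) =
      ∑ x ∈ antidiagonal d,
      (x.1 : ℚ) * (4 * x.1) * (4 * x.1 - 1) * nn N x.1 * ((x.2 : ℚ) ^ 2 * mm N x.2) := by
    refine Finset.sum_congr rfl fun x hx => ?_
    rw [Finset.HasAntidiagonal.mem_antidiagonal] at hx
    rcases Nat.eq_zero_or_pos x.1 with h0 | h0
    · rw [h0]; simp
    rcases Nat.eq_zero_or_pos x.2 with h0' | h0'
    · rw [h0']; simp
    rw [anti_single (p := 4 * x.1 - 2) (q := 4 * x.2 - 2) (by omega)]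
    · have e3 : 4 * x.1 - 2 + 1 + 1 = 4 * x.1 := by omega
      have e4 : (((4 * x.1 - 2 : ℕ)) : ℚ) = 4 * x.1 - 2 := by
        rw [Nat.cast_sub (by omega)]; push_cast; ring
      simp only [e3, nn, mm]
      push_cast
      rw [e4]
      ring
    · intro z hz hne
      rw [Finset.HasAntidiagonal.mem_antidiagonal] at hz
      have hz1 : z.1 ≠ 4 * x.1 - 2 := by
        intro hz1; apply hne; ext <;> simp only <;> omega
      rw [uu_eq_zero h (a := 0) (b := z.1 + 1 + 1) (by omega)]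
      simp
  rw [hS] at h1
  unfold mm at *
  push_cast at h1 hnn ⊢
  norm_num at h1 hnn ⊢
  linarith

theorem up3 (h : IsCount N) {d : ℕ} (hd : 2 ≤ d) :
    (2 * (d : ℚ) - 1) * (4 * d) * (4 * d - 1) * nn N d = d * (4 * d - 2) * mm N d +
      ∑ x ∈ antidiagonal d,
      ((x.1 : ℚ) ^ 3 * nn N x.1) * ((4 * x.2) * (4 * x.2 - 1) * nn N x.2) := by
  have h1 := star h d 0 (4 * d - 2)
  simp only [Finset.Nat.antidiagonal_zero, Finset.sum_singleton] at h1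
  have e1 : 4 * d - 2 + 2 = 4 * d := by omega
  have e2 : (((4 * d - 2 : ℕ)) : ℚ) = 4 * d - 2 := by
    rw [Nat.cast_sub (by omega)]; push_cast; ring
  rw [e1, e2] at h1
  have hS : ∑ x ∈ antidiagonal d, ∑ z ∈ antidiagonal (4 * d - 2),
      (x.1 : ℚ) ^ 3 * uu N x.1 0 z.1 * ((↑z.2 + 2) * (↑z.2 + 1) * uu N x.2 0 (z.2 + 2)) =
      ∑ x ∈ antidiagonal d,
      ((x.1 : ℚ) ^ 3 * nn N x.1) * ((4 * x.2) * (4 * x.2 - 1) * nn N x.2) := by
    refine Finset.sum_congr rfl fun x hx => ?_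
    rw [Finset.HasAntidiagonal.mem_antidiagonal] at hx
    rcases Nat.eq_zero_or_pos x.1 with h0 | h0
    · rw [h0]; simp
    rcases Nat.eq_zero_or_pos x.2 with h0' | h0'
    · rw [h0']; simp [uu_zero h]
    rw [anti_single (p := 4 * x.1) (q := 4 * x.2 - 2) (by omega)]
    · have e3 : 4 * x.2 - 2 + 2 = 4 * x.2 := by omega
      have e4 : (((4 * x.2 - 2 : ℕ)) : ℚ) = 4 * x.2 - 2 := by
        rw [Nat.cast_sub (by omega)]; push_cast; ring
      simp only [e3, nn]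
      rw [e4]
      ring
    · intro z hz hne
      rw [Finset.HasAntidiagonal.mem_antidiagonal] at hz
      have hz1 : z.1 ≠ 4 * x.1 := by
        intro hz1; apply hne; ext <;> simp only <;> omega
      rw [uu_eq_zero h (a := 0) (b := z.1) (by omega)]
      simp
  rw [hS] at h1
  unfold nn mm at *
  push_cast at h1 ⊢
  linarith

end Pool.Agent.Helper516.GW
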