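import Pool.Agent.Helper516.GW.Up
import Pool.Agent.Helper516.GW.Cho

open Finset Filter Topology
open scoped Nat

namespace Pool.Agent.Helper516.GW

variable {N : ℕ → ℕ → ℕ → ℚ}

theorem nn_nonneg (h : IsCount N) (d : ℕ) : 0 ≤ nn N d := uu_nonneg h _ _ _
theorem mm_nonneg (h : IsCount N) (d : ℕ) : 0 ≤ mm N d := uu_nonneg h _ _ _

theorem up4 (h : IsCount N) {d : ℕ} (hd : 2 ≤ d) : (d : ℚ) ^ 2 * mm N d ≤
      7 * ∑ x ∈ antidiagonal d, (x.1 : ℚ) ^ 3 * (x.2 : ℚ) ^ 2 * nn N x.1 * mm N x.2 := by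
  have h1 := up1 h hd
  have h2 := up2 h hd
  have hdq : (2 : ℚ) ≤ d := by exact_mod_cast hd
  set S := ∑ x ∈ antidiagonal d, (x.1 : ℚ) ^ 3 * (x.2 : ℚ) ^ 2 * nn N x.1 * mm N x.2 with hS
  have b1 : ∑ x ∈ antidiagonal d,
      (4 * (x.1 : ℚ)) * (4 * x.1 - 1) * (4 * x.1 - 2) * nn N x.1 * ((x.2 : ℚ) ^ 2 * mm N x.2) ≤
      64 * S := by
    rw [hS, Finset.mul_sum]
    refine Finset.sum_le_sum fun x _ => ?_
    have i1 := nn_nonneg h x.1
    have i2 := mm_nonneg h x.2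
    have i3 : (0 : ℚ) ≤ x.1 := by positivity
    rcases Nat.eq_zero_or_pos x.1 with h0 | h0
    · rw [h0]; simp
    have i4 : (1 : ℚ) ≤ x.1 := by exact_mod_cast h0
    have i5 : (4 * (x.1 : ℚ)) * (4 * x.1 - 1) * (4 * x.1 - 2) ≤ 64 * (x.1 : ℚ) ^ 3 := by
      nlinarith
    have i6 : 0 ≤ nn N x.1 * ((x.2 : ℚ) ^ 2 * mm N x.2) := by positivity
    have := mul_le_mul_of_nonneg_right i5 i6
    linarith
  have b2 : ∑ x ∈ antidiagonal d,
      (x.1 : ℚ) * (4 * x.1) * (4 * x.1 - 1) * nn N x.1 * ((x.2 : ℚ) ^ 2 * mm N x.2) ≤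
      16 * S := by
    rw [hS, Finset.mul_sum]
    refine Finset.sum_le_sum fun x _ => ?_
    have i1 := nn_nonneg h x.1
    have i2 := mm_nonneg h x.2
    have i3 : (0 : ℚ) ≤ x.1 := by positivity
    have i5 : (x.1 : ℚ) * (4 * x.1) * (4 * x.1 - 1) ≤ 16 * (x.1 : ℚ) ^ 3 := by
      nlinarith
    have i6 : 0 ≤ nn N x.1 * ((x.2 : ℚ) ^ 2 * mm N x.2) := by positivity
    have := mul_le_mul_of_nonneg_right i5 i6
    linarith
  have h3 : (4 * (d : ℚ) - 4) * (2 * uu N d 2 (4 * d - 4)) ≤ 64 * S := h1.trans b1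
  have iL := uu_nonneg h d 2 (4 * d - 4)
  have h4 : (d : ℚ) * (2 * uu N d 2 (4 * d - 4)) ≤ 32 * S := by
    have : 2 * (d : ℚ) ≤ 4 * d - 4 := by linarith
    have := mul_le_mul_of_nonneg_right this (by linarith : 0 ≤ 2 * uu N d 2 (4 * d - 4))
    linarith
  have h5 : (4 * (d : ℚ) - 3) * (4 * d - 2) * mm N d ≤ 48 * S := by linarith
  have im := mm_nonneg h d
  have h6 : 7 * (d : ℚ) ^ 2 ≤ (4 * (d : ℚ) - 3) * (4 * d - 2) := by nlinarith
  have h7 := mul_le_mul_of_nonneg_right h6 im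
  have hS0 : 0 ≤ S := by
    rw [hS]
    refine Finset.sum_nonneg fun x _ => ?_
    have i1 := nn_nonneg h x.1
    have i2 := mm_nonneg h x.2
    positivity
  linarith

theorem up5 (h : IsCount N) {d : ℕ} (hd : 2 ≤ d) : (d : ℚ) ^ 3 * nn N d ≤ (d : ℚ) ^ 2 * mm N d +
      ∑ x ∈ antidiagonal d, (x.1 : ℚ) ^ 3 * (x.2 : ℚ) ^ 2 * nn N x.1 * nn N x.2 := by
  have h3 := up3 h hd
  have hdq : (2 : ℚ) ≤ d := by exact_mod_cast hd
  set S := ∑ x ∈ antidiagonal d, (x.1 : ℚ) ^ 3 * (x.2 : ℚ) ^ 2 * nn N x.1 * nn N x.2 with hS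
  have b1 : ∑ x ∈ antidiagonal d,
      ((x.1 : ℚ) ^ 3 * nn N x.1) * ((4 * x.2) * (4 * x.2 - 1) * nn N x.2) ≤ 16 * S := by
    rw [hS, Finset.mul_sum]
    refine Finset.sum_le_sum fun x _ => ?_
    have i1 := nn_nonneg h x.1
    have i2 := nn_nonneg h x.2
    have i3 : (0 : ℚ) ≤ x.2 := by positivity
    have i5 : (4 * (x.2 : ℚ)) * (4 * x.2 - 1) ≤ 16 * (x.2 : ℚ) ^ 2 := by
      nlinarith
    have i6 : 0 ≤ (x.1 : ℚ) ^ 3 * nn N x.1 * nn N x.2 := by positivity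
    have := mul_le_mul_of_nonneg_right i5 i6
    linarith
  have im := mm_nonneg h d
  have inn := nn_nonneg h d
  have hS0 : 0 ≤ S := by
    rw [hS]
    refine Finset.sum_nonneg fun x _ => ?_
    have i1 := nn_nonneg h x.1
    have i2 := nn_nonneg h x.2
    positivity
  have h6 : 16 * (d : ℚ) ^ 3 ≤ (2 * (d : ℚ) - 1) * (4 * d) * (4 * d - 1) := by
    have q1 : 0 ≤ 4 * (d : ℚ) ^ 2 - 6 * d + 1 := by nlinarith
    have q2 : 0 ≤ 4 * (d : ℚ) * (4 * (d : ℚ) ^ 2 - 6 * d + 1) := by positivity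
    linarith
  have h7 := mul_le_mul_of_nonneg_right h6 inn
  have h8 : (d : ℚ) * (4 * d - 2) * mm N d ≤ 4 * (d : ℚ) ^ 2 * mm N d := by
    apply mul_le_mul_of_nonneg_right _ im
    nlinarith
  have h9 : 0 ≤ (d : ℚ) ^ 2 * mm N d := by positivity
  linarith

theorem nn_one (h : IsCount N) : nn N 1 ≤ 1 ∧ mm N 1 ≤ 1 := by
  have h1 := star h 1 1 0
  have h2 := star h 1 0 2
  have z1 : ∀ a b : ℕ, ∑ x ∈ antidiagonal (1 : ℕ), ∑ y ∈ antidiagonal a, ∑ z ∈ antidiagonal b,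
        ((x.1 : ℚ) ^ 3 * uu N x.1 y.1 z.1) * ((z.2 + 2) * (z.2 + 1) * uu N x.2 y.2 (z.2 + 2)) = 0 := by
    intro a b
    refine Finset.sum_eq_zero fun x hx => Finset.sum_eq_zero fun y _ => Finset.sum_eq_zero fun z _ => ?_
    rw [Finset.HasAntidiagonal.mem_antidiagonal] at hx
    rcases Nat.eq_zero_or_pos x.1 with h0 | h0
    · rw [h0]; simp
    · have h0' : x.2 = 0 := by omega
      rw [h0', uu_zero h]; simp
  rw [z1] at h1 h2
  norm_num at h1 h2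
  have h3 := uu_one h
  rw [h3] at h1
  constructor
  · unfold nn
    norm_num
    linarith
  · unfold mm
    norm_num
    linarith

theorem nn_bound (h : IsCount N) (d : ℕ) : (nn N d : ℝ) ≤ (200 : ℝ) ^ d := by
  refine upper_seq (fun d => (nn N d : ℝ)) (fun d => (mm N d : ℝ)) ?_ ?_ ?_ ?_ ?_ ?_ ?_ ?_ d
  · simp [nn, uu_zero h]
  · simp [mm, uu_zero h]
  · intro d; exact_mod_cast nn_nonneg h d
  · intro d; exact_mod_cast mm_nonneg h d
  · exact_mod_cast (nn_one h).1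
  · exact_mod_cast (nn_one h).2
  · intro d hd
    exact_mod_cast up4 h hd
  · intro d hd
    exact_mod_cast up5 h hd

theorem uu_bound (h : IsCount N) {d a b : ℕ} (hd : 2 * a + b = 4 * d) :
    (uu N d a b : ℝ) ≤ (Real.exp 16 * 200) ^ d := by
  have h1 := chain_iter h d a b hd
  have h2 : ((a ! : ℝ)) * (uu N d a b : ℝ) ≤ (16 * d) ^ a * (nn N d : ℝ) := by
    exact_mod_cast h1
  have h3 := nn_bound h d
  have h4 : (16 * (d : ℝ)) ^ a / (a ! : ℝ) ≤ Real.exp (16 * d) :=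
    Real.pow_div_factorial_le_exp (16 * (d : ℝ)) (by positivity) a
  have h5 : (0 : ℝ) < (a ! : ℝ) := by positivity
  have h6 : (uu N d a b : ℝ) ≤ (16 * (d : ℝ)) ^ a / (a ! : ℝ) * (nn N d : ℝ) := by
    rw [div_mul_eq_mul_div, le_div_iff₀ h5]
    linarith
  have h7 : (0 : ℝ) ≤ (nn N d : ℝ) := by exact_mod_cast nn_nonneg h d
  calc (uu N d a b : ℝ) ≤ (16 * (d : ℝ)) ^ a / (a ! : ℝ) * (nn N d : ℝ) := h6
    _ ≤ Real.exp (16 * d) * (200 : ℝ) ^ d := by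
        apply mul_le_mul h4 h3 h7 (Real.exp_pos _).le
    _ = (Real.exp 16 * 200) ^ d := by
        rw [mul_pow, ← Real.exp_nat_mul]
        congr 2
        ring

theorem ray_limit (h : IsCount N) {α β : ℕ} (hα : 0 < α) (hβ : 0 < β) (hβα : β ≤ 2 * α) :
    ∃ L : ℝ, 0 < L ∧ Tendsto (fun d : ℕ => ((ray N α β d : ℚ) : ℝ) ^ (1 / (d : ℝ))) atTop (𝓝 L) := by
  refine fekete_root (fun d => ((ray N α β d : ℚ) : ℝ)) (1 / 32) 1 ((Real.exp 16 * 200) ^ α)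
    (by norm_num) one_pos (by positivity) ?_ ?_ ?_
  · intro d hd
    exact_mod_cast ray_pos h hα hβ hβα hd
  · intro d e hd he
    have := ray_sup h hα hβ hβα hd he
    have h2 : (((1 / 32 * ray N α β d * ray N α β e : ℚ)) : ℝ) ≤ ((ray N α β (d + e) : ℚ) : ℝ) := by
      exact_mod_cast this
    push_cast at h2
    exact h2
  · intro d _
    rw [one_mul, ← pow_mul]
    have h3 : β * d ≤ 2 * (α * d) := by
      calc β * d ≤ (2 * α) * d := Nat.mul_le_mul_right d hβα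
        _ = 2 * (α * d) := by ring
    exact uu_bound h (by omega)

theorem main_limit (h : IsCount N) {α β : ℕ} (hα : 0 < α) (hβ : 0 < β) (hβα : β ≤ 2 * α) :
    ∃ L : ℝ, 0 < L ∧ Tendsto (fun d : ℕ =>
      (((N (α * d) (2 * (α * d) - β * d) (2 * (β * d)) : ℚ) : ℝ) /
        (((2 * α + β) * d)! : ℝ)) ^ (1 / (d : ℝ))) atTop (𝓝 L) := by
  obtain ⟨L1, hL1, h1⟩ := ray_limit h hα hβ hβα
  obtain ⟨L2, hL2, h2⟩ := choose_root (2 * α + β) (2 * β) (by omega)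
  refine ⟨L1 / L2, div_pos hL1 hL2, ?_⟩
  have h3 := h1.div h2 hL2.ne'
  refine h3.congr fun d => ?_
  have h4 : β * d ≤ 2 * (α * d) := by
    calc β * d ≤ (2 * α) * d := Nat.mul_le_mul_right d hβα
      _ = 2 * (α * d) := by ring
  have e1 : (2 * α + β) * d = (2 * (α * d) - β * d) + 2 * (β * d) := by
    have : (2 * α + β) * d = 2 * (α * d) + β * d := by ring
    omega
  have e2 : 2 * β * d = 2 * (β * d) := by ring
  have hpos : 0 ≤ ((ray N α β d : ℚ) : ℝ) := by exact_mod_cast uu_nonneg h _ _ _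
  show ((ray N α β d : ℚ) : ℝ) ^ (1 / (d : ℝ)) /
    ((((2 * α + β) * d).choose (2 * β * d) : ℕ) : ℝ) ^ (1 / (d : ℝ)) = _
  rw [← Real.div_rpow hpos (by positivity)]
  congr 1
  rw [e1, e2]
  set A := 2 * (α * d) - β * d
  set B := 2 * (β * d)
  have hc := Nat.add_choose_mul_factorial_mul_factorial A B
  have hc' : (((A + B).choose B : ℕ) : ℝ) * (A ! : ℝ) * (B ! : ℝ) = ((A + B)! : ℝ) := by
    exact_mod_cast hc
  have pA : (A ! : ℝ) ≠ 0 := by positivity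
  have pB : (B ! : ℝ) ≠ 0 := by positivity
  have pAB : ((A + B)! : ℝ) ≠ 0 := by positivity
  have pc : (((A + B).choose B : ℕ) : ℝ) ≠ 0 := by
    intro h0; rw [h0] at hc'; simp at hc'; exact pAB hc'.symm
  have hr : ((ray N α β d : ℚ) : ℝ) = ((N (α * d) A B : ℚ) : ℝ) / ((A ! : ℝ) * (B ! : ℝ)) := by
    unfold ray uu
    push_cast
    rfl
  rw [hr, ← hc']
  field_simp

end Pool.Agent.Helper516.GW
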