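import Pool.Agent.Helper516.GW.Num

open Finset
open scoped Nat

namespace Pool.Agent.Helper516.GW

variable {N : ℕ → ℕ → ℕ → ℚ}

def v1 (a b : ℕ) : ℚ :=
  if a = 2 ∧ b = 0 then 1 / 2 else if a = 1 ∧ b = 2 then 1 / 2 else if a = 0 ∧ b = 4 then 1 / 12 else 0

theorem sum_d1 (h : IsCount N) (a b : ℕ) : ∑ x ∈ antidiagonal (1 : ℕ), ∑ y ∈ antidiagonal a,
    ∑ z ∈ antidiagonal b,
      ((x.1 : ℚ) ^ 3 * uu N x.1 y.1 z.1) * ((z.2 + 2) * (z.2 + 1) * uu N x.2 y.2 (z.2 + 2)) = 0 := by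
  refine Finset.sum_eq_zero fun x hx => Finset.sum_eq_zero fun y _ => Finset.sum_eq_zero fun z _ => ?_
  rw [Finset.HasAntidiagonal.mem_antidiagonal] at hx
  rcases Nat.eq_zero_or_pos x.1 with h0 | h0
  · rw [h0]; simp
  · have h0' : x.2 = 0 := by omega
    rw [h0', uu_zero h]; simp

theorem uu1 (h : IsCount N) (a b : ℕ) : uu N 1 a b = v1 a b := by
  have h1 := star h 1 1 0
  have h2 := star h 1 0 2
  have h3 := uu_one h
  rw [sum_d1 h] at h1 h2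
  norm_num at h1 h2
  rw [h3] at h1
  have h4 : uu N 1 1 2 = 1 / 2 := by linarith
  rw [h4] at h2
  have h5 : uu N 1 0 4 = 1 / 12 := by linarith
  unfold v1
  split_ifs with c1 c2 c3
  · rw [c1.1, c1.2]; exact h3
  · rw [c2.1, c2.2]; exact h4
  · rw [c3.1, c3.2]; exact h5
  · exact uu_eq_zero h (by omega)

theorem star2 (h : IsCount N) (a b : ℕ) :
    3 * ((b : ℚ) + 2) * (b + 1) * uu N 2 a (b + 2) =
      2 * (a + 1) * (a + b) * uu N 2 (a + 1) b +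
      ∑ y ∈ antidiagonal a, ∑ z ∈ antidiagonal b,
        v1 y.1 z.1 * ((z.2 + 2) * (z.2 + 1) * v1 y.2 (z.2 + 2)) := by
  have h1 := star h 2 a b
  have h2 : antidiagonal (2 : ℕ) = {((0 : ℕ), (2 : ℕ)), (1, 1), (2, 0)} := by decide
  rw [h2] at h1
  simp only [Finset.sum_insert (by decide : ((0 : ℕ), (2 : ℕ)) ∉ ({(1, 1), (2, 0)} : Finset (ℕ × ℕ))),
    Finset.sum_insert (by decide : ((1 : ℕ), (1 : ℕ)) ∉ ({(2, 0)} : Finset (ℕ × ℕ))),
    Finset.sum_singleton, uu_zero h, uu1 h] at h1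
  norm_num at h1
  linarith

theorem uu2_top (h : IsCount N) : uu N 2 4 0 = 0 := by
  have h1 := rel2 h 2
  have h2 : antidiagonal (2 : ℕ) = {((0 : ℕ), (2 : ℕ)), (1, 1), (2, 0)} := by decide
  rw [h2] at h1
  simp only [Finset.sum_insert (by decide : ((0 : ℕ), (2 : ℕ)) ∉ ({(1, 1), (2, 0)} : Finset (ℕ × ℕ))),
    Finset.sum_insert (by decide : ((1 : ℕ), (1 : ℕ)) ∉ ({(2, 0)} : Finset (ℕ × ℕ))),
    Finset.sum_singleton, ww, yy, uu_zero h, uu1 h] at h1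
  norm_num at h1
  exact h1

theorem count_deg_two (h : IsCount N) :
    N 2 4 0 = 0 ∧ N 2 3 2 = 1 ∧ N 2 2 4 = 4 ∧ N 2 1 6 = 18 ∧ N 2 0 8 = 92 := by
  have t := uu2_top h
  have s3 := star2 h 3 0
  have s2 := star2 h 2 2
  have s1 := star2 h 1 4
  have s0 := star2 h 0 6
  simp [Finset.Nat.antidiagonal_succ, v1] at s3 s2 s1 s0
  norm_num [t] at s3
  have e3 : uu N 2 3 2 = 1 / 12 := by linarith
  norm_num [e3] at s2
  have e2 : uu N 2 2 4 = 1 / 12 := by linarith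
  norm_num [e2] at s1
  have e1 : uu N 2 1 6 = 1 / 40 := by linarith
  norm_num [e1] at s0
  have e0 : uu N 2 0 8 = 23 / 10080 := by linarith
  have f : ∀ a b : ℕ, N 2 a b = uu N 2 a b * ((a ! : ℚ) * (b ! : ℚ)) := by
    intro a b
    unfold uu
    have pa : (a ! : ℚ) ≠ 0 := by positivity
    have pb : (b ! : ℚ) ≠ 0 := by positivity
    field_simp
  refine ⟨?_, ?_, ?_, ?_, ?_⟩
  · rw [f, t]; simp
  · rw [f, e3]; norm_num [Nat.factorial]
  · rw [f, e2]; norm_num [Nat.factorial]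
  · rw [f, e1]; norm_num [Nat.factorial]
  · rw [f, e0]; norm_num [Nat.factorial]

end Pool.Agent.Helper516.GW
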