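import Pool.Agent.Helper516.GW.Phi2

open Finset
open scoped Nat

namespace Pool.Agent.Helper516.GW

/-- coefficients of q-degree below n vanish -/
def Van (n : ℕ) (F : T) : Prop := ∀ d < n, ∀ a b, cf F d a b = 0

theorem Van.D1 {n : ℕ} {F : T} (h : Van n F) : Van n (D1 F) := by
  intro d hd a b; simp [h d hd]

theorem Van.D2 {n : ℕ} {F : T} (h : Van n F) : Van n (D2 F) := by
  intro d hd a b; simp [h d hd]

theorem Van.D3 {n : ℕ} {F : T} (h : Van n F) : Van n (D3 F) := by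
  intro d hd a b; simp [h d hd]

theorem Van.add {n : ℕ} {F H : T} (h : Van n F) (h' : Van n H) : Van n (F + H) := by
  intro d hd a b; simp [h d hd, h' d hd]

theorem Van.sub {n : ℕ} {F H : T} (h : Van n F) (h' : Van n H) : Van n (F - H) := by
  intro d hd a b; simp [h d hd, h' d hd]

theorem Van.mono {n m : ℕ} {F : T} (h : Van n F) (hm : m ≤ n) : Van m F := by
  intro d hd a b; exact h d (by omega) a b

theorem Van.mul {n m : ℕ} {F H : T} (h : Van n F) (h' : Van m H) : Van (n + m) (F * H) := by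
  intro d hd a b
  rw [cf_mul]
  refine Finset.sum_eq_zero fun x hx => Finset.sum_eq_zero fun y _ => Finset.sum_eq_zero fun z _ => ?_
  rw [Finset.HasAntidiagonal.mem_antidiagonal] at hx
  by_cases h1 : x.1 < n
  · rw [h x.1 h1, zero_mul]
  · rw [h' x.2 (by omega), mul_zero]

theorem Van.mul_right {n : ℕ} {F : T} (h : Van n F) (H : T) : Van n (F * H) := by
  have : Van 0 H := by intro d hd; omega
  simpa using h.mul this

theorem Van.mul_left {n : ℕ} {F : T} (h : Van n F) (H : T) : Van n (H * F) := by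
  have : Van 0 H := by intro d hd; omega
  simpa using this.mul h

noncomputable def dA (G : T) : T :=
  D2 (D2 (D2 G)) + D1 (D1 (D1 G)) * D2 (D2 (D2 G)) -
    (2 * D1 (D2 (D3 G)) + D1 (D1 (D2 G)) * D1 (D2 (D2 G)))
noncomputable def dB (G : T) : T :=
  D2 (D2 (D3 G)) + D1 (D1 (D1 G)) * D2 (D2 (D3 G)) -
    (D1 (D3 (D3 G)) + D1 (D2 (D2 G)) * D1 (D1 (D3 G)))
noncomputable def dD (G : T) : T :=
  D2 (D3 (D3 G)) + D1 (D1 (D2 G)) * D2 (D2 (D3 G)) - D2 (D2 (D2 G)) * D1 (D1 (D3 G))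
noncomputable def dE (G : T) : T :=
  D3 (D3 (D3 G)) + D1 (D1 (D2 G)) * D2 (D3 (D3 G)) + D1 (D2 (D2 G)) * D1 (D3 (D3 G)) -
    (D1 (D2 (D3 G)) * D1 (D2 (D3 G)) + D1 (D1 (D3 G)) * D2 (D2 (D3 G)))

theorem I3 (G : T) : D3 (dA G) = D2 (dB G) - D1 (dD G) := by
  have c12 : ∀ F : T, D2 (D1 F) = D1 (D2 F) := fun F => (D12 F).symm
  have c13 : ∀ F : T, D3 (D1 F) = D1 (D3 F) := fun F => (D13 F).symm
  have c23 : ∀ F : T, D3 (D2 F) = D2 (D3 F) := fun F => (D23 F).symm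
  unfold dA dB dD
  simp only [map_add, map_sub, D1_mul, D2_mul, D3_mul, two_mul, c12, c13, c23]
  ring

theorem I2 (G : T) : D3 (dB G) = D2 (dD G) - D1 (dE G) +
    D2 (D1 (D1 (D3 G)) * dA G - D1 (D1 (D2 G)) * dB G + D1 (D1 (D1 G)) * dD G) := by
  have c12 : ∀ F : T, D2 (D1 F) = D1 (D2 F) := fun F => (D12 F).symm
  have c13 : ∀ F : T, D3 (D1 F) = D1 (D3 F) := fun F => (D13 F).symm
  have c23 : ∀ F : T, D3 (D2 F) = D2 (D3 F) := fun F => (D23 F).symm
  unfold dA dB dD dE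
  simp only [map_add, map_sub, D1_mul, D2_mul, D3_mul, two_mul, c12, c13, c23]
  ring

theorem I1 (G : T) : D3 (dD G) = D2 (dE G) -
    D1 (D2 (D2 (D3 G)) * dA G - D2 (D2 (D2 G)) * dB G + D1 (D2 (D2 G)) * dD G) := by
  have c12 : ∀ F : T, D2 (D1 F) = D1 (D2 F) := fun F => (D12 F).symm
  have c13 : ∀ F : T, D3 (D1 F) = D1 (D3 F) := fun F => (D13 F).symm
  have c23 : ∀ F : T, D3 (D2 F) = D2 (D3 F) := fun F => (D23 F).symm
  unfold dA dB dD dE
  simp only [map_add, map_sub, D1_mul, D2_mul, D3_mul, two_mul, c12, c13, c23]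
  ring

/-- solution up to q-degree n -/
structure Sol (n : ℕ) (u : ℕ → ℕ → ℕ → ℚ) : Prop where
  dim : ∀ d a b : ℕ, u d a b ≠ 0 → 1 ≤ d ∧ 2 * a + b = 4 * d
  line : u 1 2 0 = 1 / 2
  A : Van (n + 1) (dA (ser u))
  B : Van (n + 1) (dB (ser u))
  D : Van (n + 1) (dD (ser u))
  E : Van (n + 1) (dE (ser u))

end Pool.Agent.Helper516.GW
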